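import Pool.Agent.R664.IAS.Base

set_option autoImplicit false

namespace Pool.Agent.R664.IAS

open Equiv Equiv.Perm
open Pool.Agent.Helper889.Si

section
variable {α : Type} [DecidableEq α]

theorem c3_comm_eq {u v w x y : α} (huv : u ≠ v) (huw : u ≠ w) (hux : u ≠ x) (huy : u ≠ y)
    (hvw : v ≠ w) (hvx : v ≠ x) (hvy : v ≠ y) (hwx : w ≠ x) (hwy : w ≠ y) (hxy : x ≠ y) :
    c3 u v x * c3 u w y * (c3 u v x)⁻¹ * (c3 u w y)⁻¹ = c3 u v w := by
  rw [c3_conj, c3_1 huv hux, c3_fix huw.symm hvw.symm hwx, c3_fix huy.symm hvy.symm hxy.symm,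
    c3_inv huw huy hwy]
  ext1 z
  rw [Perm.mul_apply]
  by_cases h1 : z = w
  · subst h1; rw [c3_1 huw.symm hwy, c3_fix huv huw huy, c3_3]
  by_cases h2 : z = u
  · subst h2; rw [c3_2 hwy huy, c3_3, c3_1 huv huw]
  by_cases h3 : z = y
  · subst h3; rw [c3_3, c3_2 hvy hwy, c3_fix huy.symm hvy.symm hwy.symm]
  by_cases h4 : z = v
  · subst h4; rw [c3_fix hvw huv.symm hvy, c3_1 hvw hvy, c3_2 huw hvw]
  rw [c3_fix h1 h2 h3, c3_fix h4 h1 h3, c3_fix h2 h4 h1]

theorem c3_disj {a b c a' b' c' : α} (h1 : a ≠ a') (h2 : a ≠ b') (h3 : a ≠ c') (h4 : b ≠ a')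
    (h5 : b ≠ b') (h6 : b ≠ c') (h7 : c ≠ a') (h8 : c ≠ b') (h9 : c ≠ c') :
    c3 a b c * c3 a' b' c' * (c3 a b c)⁻¹ * (c3 a' b' c')⁻¹ = 1 := by
  rw [c3_conj, c3_fix h1.symm h4.symm h7.symm, c3_fix h2.symm h5.symm h8.symm,
    c3_fix h3.symm h6.symm h9.symm, mul_inv_cancel]

theorem exists_ne_of_card [Fintype α] (s : Finset α) (h : s.card < Fintype.card α) :
    ∃ x, x ∉ s := by
  by_contra hcon
  push Not at hcon
  have := Finset.card_le_card (fun w _ => hcon w : (Finset.univ : Finset α) ⊆ s)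
  rw [Finset.card_univ] at this
  omega

theorem cent_alt [Fintype α] (h4 : 4 ≤ Fintype.card α) (σ : Perm α)
    (h : ∀ τ ∈ alternatingGroup α, σ * τ * σ⁻¹ = τ) : σ = 1 := by
  ext1 x
  by_contra hx
  rw [Perm.one_apply] at hx
  obtain ⟨a, ha⟩ := exists_ne_of_card {x, σ x} (lt_of_le_of_lt Finset.card_le_two (by omega))
  obtain ⟨b, hb⟩ := exists_ne_of_card {x, σ x, a} (lt_of_le_of_lt Finset.card_le_three (by omega))
  simp only [Finset.mem_insert, Finset.mem_singleton, not_or] at ha hb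
  have h1 := h (c3 x a b) (c3_mem (Ne.symm ha.1) (Ne.symm hb.2.2))
  rw [c3_conj] at h1
  have h2 : c3 (σ x) (σ a) (σ b) (σ x) = c3 x a b (σ x) := by rw [h1]
  rw [c3_1 (fun h => ha.1 (σ.injective h).symm) (fun h => hb.1 (σ.injective h).symm),
    c3_fix hx (Ne.symm ha.2) (Ne.symm hb.2.1)] at h2
  exact ha.1 (σ.injective h2)

end

theorem card_F : Fintype.card F = 6 := by
  rw [Fintype.card_perm]; rfl

theorem card_X (k : ℕ) : Fintype.card (X k) = (2 * k + 4) * 6 := by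
  rw [Fintype.card_prod, ZMod.card, card_F]

theorem units_pow_nn (x : ℤˣ) (k : ℕ) : x ^ nn k = 1 := by
  rw [show nn k = 2 * (k + 2) by unfold nn; ring, pow_mul, Int.units_sq, one_pow]

theorem units_pow_six (x : ℤˣ) : x ^ 6 = 1 := by
  rw [show 6 = 2 * 3 by rfl, pow_mul, Int.units_sq, one_pow]

theorem sign_Lf (j : ℤ) (y : F) (k : ℕ) : sign (Lf j y k) = 1 := by
  have h1 : Lf j y k = Equiv.prodCongrRight (fun _ : ZMod (nn k) => Equiv.mulLeft y) *
      Equiv.prodCongrLeft (fun _ : F => Equiv.addRight (j : ZMod (nn k))) := by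
    ext1 x
    rfl
  rw [h1, Perm.sign_mul, sign_prodCongrRight, sign_prodCongrLeft, Finset.prod_const, Finset.prod_const,
    Finset.card_univ, Finset.card_univ, ZMod.card, card_F, units_pow_nn, units_pow_six, one_mul]

theorem sign_Rf (h : F) (k : ℕ) : sign (Rf h k) = 1 := by
  have h1 : Rf h k = Equiv.prodCongrRight (fun _ : ZMod (nn k) => Equiv.mulRight h⁻¹) := by
    ext1 x
    rfl
  rw [h1, sign_prodCongrRight, Finset.prod_const, Finset.card_univ, ZMod.card, units_pow_nn]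

/-- window points stay distinct -/
theorem pr_win {j : ℤ} {u v : Y} (hu : u.1 = j ∨ u.1 = j + 1) (hv : v.1 = j ∨ v.1 = j + 1)
    (h : u ≠ v) (k : ℕ) : pr k u ≠ pr k v := by
  intro h1
  rw [pr_eq_iff] at h1
  apply h
  have h2 : u.1 - v.1 = 0 := by
    apply Int.eq_zero_of_abs_lt_dvd h1.1
    rw [abs_lt]
    unfold nn
    push_cast
    constructor <;> omega
  exact Prod.ext (by omega) h1.2

theorem sign_G0 {g : P} (hg : g ∈ G0) (k : ℕ) : sign (g k) = 1 := by
  induction hg using Subgroup.closure_induction with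
  | mem x hx =>
    rcases hx with (rfl | ⟨y, rfl⟩) | ⟨u, v, w, hu, hv, hw, h1, h2, h3, rfl⟩
    · exact sign_Lf _ _ _
    · exact sign_Lf _ _ _
    · have e : ∀ x : Y, (x.1 = 0 ∨ x.1 = 1) → (x.1 = 0 ∨ x.1 = 0 + 1) := fun x h => by omega
      exact c3_mem (pr_win (e u hu) (e v hv) h1 k) (pr_win (e v hv) (e w hw) h3 k)
  | one => rw [Pi.one_apply, Perm.sign_one]
  | mul x y _ _ hx hy => rw [Pi.mul_apply, Perm.sign_mul, hx, hy, one_mul]
  | inv x _ hx => rw [Pi.inv_apply, Perm.sign_inv, hx]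

/-- filling in finitely many coordinates -/
theorem fill (H : Subgroup P) (a : ℕ) : ∀ b : ℕ,
    (∀ k, a ≤ k → k < b → ∀ σ ∈ alternatingGroup (X k), (Pi.mulSingle k σ : P) ∈ H) →
    ∀ z : P, (∀ k, k < a ∨ b ≤ k → z k = 1) → (∀ k, sign (z k) = 1) → z ∈ H := by
  intro b
  induction b with
  | zero =>
    intro _ z hz _
    have : z = 1 := funext fun k => hz k (Or.inr (Nat.zero_le k))
    rw [this]
    exact H.one_mem
  | succ b ih =>
    intro hH z hz hs
    by_cases hab : a ≤ b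
    · have h1 : Function.update z b 1 ∈ H := by
        refine ih (fun k h1 h2 => hH k h1 (by omega)) _ ?_ ?_
        · intro k hk
          by_cases hkb : k = b
          · subst hkb; simp
          · rw [Function.update_of_ne hkb]
            exact hz k (by omega)
        · intro k
          by_cases hkb : k = b
          · subst hkb; simp
          · rw [Function.update_of_ne hkb]
            exact hs k
      have h2 := H.mul_mem h1 (hH b hab (Nat.lt_succ_self b) (z b) (hs b))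
      have h3 : Function.update z b 1 * Pi.mulSingle b (z b) = z := by
        funext k
        by_cases hkb : k = b
        · subst hkb; simp
        · rw [Pi.mul_apply, Function.update_of_ne hkb, Pi.mulSingle_eq_of_ne hkb, mul_one]
      rwa [h3] at h2
    · have : z = 1 := funext fun k => hz k (by omega)
      rw [this]
      exact H.one_mem

/-- the commutator of a three-cycle and a shifted three-cycle -/
def ee (s : ℤ) (u v w x y : Y) : P :=
  tr u v x * (Lf s 1 * tr u w y * (Lf s 1)⁻¹) * (tr u v x)⁻¹ *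
    (Lf s 1 * tr u w y * (Lf s 1)⁻¹)⁻¹

theorem Lf_coord {s : ℤ} {k : ℕ} (h : (nn k : ℤ) ∣ s) : Lf s 1 k = 1 := by
  ext1 x
  rw [Lf_apply, Perm.one_apply, one_mul]
  have : ((s : ℤ) : ZMod (nn k)) = 0 := (ZMod.intCast_zmod_eq_zero_iff_dvd s (nn k)).2 h
  rw [this, add_zero]

/-- `u`, `v`, `w`, `x`, `y` are distinct points of the window `{0, 1}` -/
structure Win5 (u v w x y : Y) : Prop where
  hu : u.1 = 0 ∨ u.1 = 0 + 1
  hv : v.1 = 0 ∨ v.1 = 0 + 1
  hw : w.1 = 0 ∨ w.1 = 0 + 1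
  hx : x.1 = 0 ∨ x.1 = 0 + 1
  hy : y.1 = 0 ∨ y.1 = 0 + 1
  huv : u ≠ v
  huw : u ≠ w
  hux : u ≠ x
  huy : u ≠ y
  hvw : v ≠ w
  hvx : v ≠ x
  hvy : v ≠ y
  hwx : w ≠ x
  hwy : w ≠ y
  hxy : x ≠ y

theorem Win5.comm {u v w x y : Y} (h : Win5 u v w x y) (k : ℕ) :
    tr u v x k * tr u w y k * (tr u v x k)⁻¹ * (tr u w y k)⁻¹ = tr u v w k :=
  c3_comm_eq (pr_win h.hu h.hv h.huv k) (pr_win h.hu h.hw h.huw k) (pr_win h.hu h.hx h.hux k)
    (pr_win h.hu h.hy h.huy k) (pr_win h.hv h.hw h.hvw k) (pr_win h.hv h.hx h.hvx k)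
    (pr_win h.hv h.hy h.hvy k) (pr_win h.hw h.hx h.hwx k) (pr_win h.hw h.hy h.hwy k)
    (pr_win h.hx h.hy h.hxy k)

theorem ee_dvd {u v w x y : Y} (h : Win5 u v w x y) {s : ℤ} {k : ℕ} (hs : (nn k : ℤ) ∣ s) :
    ee s u v w x y k = tr u v w k := by
  rw [← h.comm k, ee]
  simp only [Pi.mul_apply, Pi.inv_apply, Lf_coord hs, one_mul, inv_one, mul_one]

theorem ee_far {u v w x y : Y} (h : Win5 u v w x y) {s : ℤ} {k : ℕ} (hs : 2 ≤ s)
    (hk : s + 1 < nn k) : ee s u v w x y k = 1 := by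
  rw [ee, conj_tr (glob_Lf s 1)]
  have key : ∀ a b : Y, (a.1 = 0 ∨ a.1 = 0 + 1) → (b.1 = 0 ∨ b.1 = 0 + 1) →
      pr k a ≠ pr k (LY s 1 b) := by
    intro a b ha hb h1
    rw [pr_eq_iff, LY_apply] at h1
    have h2 : a.1 - (b.1 + s) = 0 := by
      apply Int.eq_zero_of_abs_lt_dvd h1.1
      rw [abs_lt]
      constructor <;> omega
    omega
  exact c3_disj (key _ _ h.hu h.hu) (key _ _ h.hu h.hw) (key _ _ h.hu h.hy)
    (key _ _ h.hv h.hu) (key _ _ h.hv h.hw) (key _ _ h.hv h.hy)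
    (key _ _ h.hx h.hu) (key _ _ h.hx h.hw) (key _ _ h.hx h.hy)

theorem tr_mem0 {u v w : Y} (hu : u.1 = 0 ∨ u.1 = 0 + 1) (hv : v.1 = 0 ∨ v.1 = 0 + 1)
    (hw : w.1 = 0 ∨ w.1 = 0 + 1) (h1 : u ≠ v) (h2 : u ≠ w) (h3 : v ≠ w) : tr u v w ∈ G0 :=
  tr_mem hu hv hw h1 h2 h3

theorem ee_mem {u v w x y : Y} (h : Win5 u v w x y) (s : ℤ) : ee s u v w x y ∈ G0 := by
  have h1 := tr_mem0 h.hu h.hv h.hx h.huv h.hux h.hvx
  have h2 := G0.mul_mem (G0.mul_mem (Lf_mem s 1) (tr_mem0 h.hu h.hw h.hy h.huw h.huy h.hwy))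
    (G0.inv_mem (Lf_mem s 1))
  exact G0.mul_mem (G0.mul_mem (G0.mul_mem h1 h2) (G0.inv_mem h1)) (G0.inv_mem h2)

theorem exists_win5 {u v w : Y} (hu : u.1 = 0 ∨ u.1 = 0 + 1) (hv : v.1 = 0 ∨ v.1 = 0 + 1)
    (hw : w.1 = 0 ∨ w.1 = 0 + 1) (h1 : u ≠ v) (h2 : u ≠ w) (h3 : v ≠ w) :
    ∃ x y, Win5 u v w x y := by
  obtain ⟨x, hx⟩ := exists_ne_of_card {u.2, v.2, w.2}
    (lt_of_le_of_lt Finset.card_le_three (by rw [card_F]; norm_num))
  obtain ⟨y, hy⟩ := exists_ne_of_card {u.2, v.2, w.2, x}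
    (lt_of_le_of_lt Finset.card_le_four (by rw [card_F]; norm_num))
  simp only [Finset.mem_insert, Finset.mem_singleton, not_or] at hx hy
  refine ⟨(0, x), (0, y), hu, hv, hw, Or.inl rfl, Or.inl rfl, h1, h2, ?_, ?_, h3, ?_, ?_, ?_, ?_,
    ?_⟩
  · exact fun h => hx.1 (congrArg Prod.snd h).symm
  · exact fun h => hy.1 (congrArg Prod.snd h).symm
  · exact fun h => hx.2.1 (congrArg Prod.snd h).symm
  · exact fun h => hy.2.1 (congrArg Prod.snd h).symm
  · exact fun h => hx.2.2 (congrArg Prod.snd h).symm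
  · exact fun h => hy.2.2.1 (congrArg Prod.snd h).symm
  · exact fun h => hy.2.2.2 (congrArg Prod.snd h).symm

/-- all even permutations of a single coordinate belong to `G0` -/
theorem single_mem (k : ℕ) : ∀ σ ∈ alternatingGroup (X k), (Pi.mulSingle k σ : P) ∈ G0 := by
  induction k using Nat.strong_induction_on with
  | _ k ih =>
    let H : Subgroup (Perm (X k)) := G0.comap (MonoidHom.mulSingle (fun k => Perm (X k)) k)
    have hH : ∀ σ, σ ∈ H ↔ (Pi.mulSingle k σ : P) ∈ G0 := fun σ => Iff.rfl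
    have hconj : ∀ g ∈ G0, ∀ σ ∈ H, g k * σ * (g k)⁻¹ ∈ H := by
      intro g hg σ hσ
      rw [hH] at hσ ⊢
      have := G0.mul_mem (G0.mul_mem hg hσ) (G0.inv_mem hg)
      have e : g * Pi.mulSingle k σ * g⁻¹ = Pi.mulSingle k (g k * σ * (g k)⁻¹) := by
        funext i
        by_cases hik : i = k
        · subst hik; simp
        · simp [Pi.mulSingle_eq_of_ne hik]
      rwa [e] at this
    -- the window {0, 1}
    have h0 : ∀ u v w : Y, (u.1 = 0 ∨ u.1 = 0 + 1) → (v.1 = 0 ∨ v.1 = 0 + 1) →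
        (w.1 = 0 ∨ w.1 = 0 + 1) → u ≠ v → u ≠ w → v ≠ w → c3 (pr k u) (pr k v) (pr k w) ∈ H := by
      intro u v w hu hv hw h1 h2 h3
      obtain ⟨x, y, h5⟩ := exists_win5 hu hv hw h1 h2 h3
      have h6 := ee_mem h5 (nn k : ℤ)
      have h7 : ee (nn k : ℤ) u v w x y * (Pi.mulSingle k (tr u v w k))⁻¹ ∈ G0 := by
        refine fill G0 0 k (fun i _ hi => ih i hi) _ ?_ ?_
        · intro i hi
          rcases Nat.lt_or_ge k i with hki | hki
          · rw [Pi.mul_apply, Pi.inv_apply, Pi.mulSingle_eq_of_ne (by omega), inv_one, mul_one]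
            apply ee_far h5
            · unfold nn; push_cast; omega
            · unfold nn; push_cast; omega
          · have : i = k := by omega
            subst this
            rw [Pi.mul_apply, Pi.inv_apply, Pi.mulSingle_eq_same, ee_dvd h5 dvd_rfl,
              mul_inv_cancel]
        · intro i
          rw [Pi.mul_apply, Perm.sign_mul, sign_G0 h6, one_mul, Pi.inv_apply, Perm.sign_inv]
          by_cases hik : i = k
          · subst hik
            rw [Pi.mulSingle_eq_same]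
            exact c3_mem (pr_win hu hv h1 i) (pr_win hv hw h3 i)
          · rw [Pi.mulSingle_eq_of_ne hik, Perm.sign_one]
      have h8 := G0.mul_mem (G0.inv_mem h7) h6
      rw [mul_inv_rev, inv_inv, mul_assoc, inv_mul_cancel, mul_one] at h8
      exact h8
    -- all windows
    have h1 : ∀ (j : ℤ) (u v w : Y), (u.1 = j ∨ u.1 = j + 1) → (v.1 = j ∨ v.1 = j + 1) →
        (w.1 = j ∨ w.1 = j + 1) → pr k u ≠ pr k v → pr k u ≠ pr k w → pr k v ≠ pr k w →
        c3 (pr k u) (pr k v) (pr k w) ∈ H := by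
      intro j u v w hu hv hw h1 h2 h3
      have h4 := h0 (LY (-j) 1 u) (LY (-j) 1 v) (LY (-j) 1 w) (by simp only [LY_apply]; omega)
        (by simp only [LY_apply]; omega) (by simp only [LY_apply]; omega)
        (fun h => h1 (by rw [(LY (-j) 1).injective h])) (fun h => h2 (by rw [(LY (-j) 1).injective h]))
        (fun h => h3 (by rw [(LY (-j) 1).injective h]))
      have h5 := hconj _ (Lf_mem j 1) _ h4
      rw [c3_conj, pr_LY, pr_LY, pr_LY] at h5
      have h6 : ∀ x : Y, LY j 1 (LY (-j) 1 x) = x := by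
        intro x
        simp only [LY_apply]
        exact Prod.ext (by simp) (by simp)
      rwa [h6, h6, h6] at h5
    have h2 := glueY (pr k) H (fun j => pr_win (j := j) (Or.inl rfl) (Or.inl rfl)
      (fun h => sg_ne (congrArg Prod.snd h)) k) h1
    have h3 : alternatingGroup (X k) ≤ H := by
      apply alt_le_of_c3
      intro a b c
      obtain ⟨u, rfl⟩ := pr_surj k a
      obtain ⟨v, rfl⟩ := pr_surj k b
      obtain ⟨w, rfl⟩ := pr_surj k c
      exact h2 u v w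
    intro σ hσ
    exact h3 hσ

theorem fill_G0 (b : ℕ) (z : P) (h1 : ∀ k, b ≤ k → z k = 1) (h2 : ∀ k, sign (z k) = 1) :
    z ∈ G0 :=
  fill G0 0 b (fun k _ _ => single_mem k) z (fun k hk => h1 k (by omega)) h2

end Pool.Agent.R664.IAS
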