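import Pool.Agent.R664.IAS.Sep
import Pool.Agent.H302R6.AutB

set_option autoImplicit false

namespace Pool.Agent.R664.IAS

open Equiv Equiv.Perm
open Pool.Agent.Helper889.Si

theorem incl_inj (k : ℕ) : Function.Injective (incl k) := by
  intro σ τ h
  have h1 : (Pi.mulSingle k (σ : Perm (X k)) : P) = Pi.mulSingle k (τ : Perm (X k)) :=
    congrArg Subtype.val h
  exact Subtype.ext (Pi.mulSingle_injective k h1)

/-- the alternating subgroups -/
def Ak (k : ℕ) : Subgroup G0 := (incl k).range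

theorem mem_Ak {k : ℕ} {x : G0} : x ∈ Ak k ↔ ∀ i, i ≠ k → (x : P) i = 1 := by
  constructor
  · rintro ⟨σ, rfl⟩ i hi
    rw [incl_apply, Pi.mulSingle_eq_of_ne hi]
  · intro h
    refine ⟨⟨(x : P) k, sign_G0 x.2 k⟩, Subtype.ext ?_⟩
    rw [incl_apply]
    funext i
    by_cases hi : i = k
    · subst hi; rw [Pi.mulSingle_eq_same]
    · rw [Pi.mulSingle_eq_of_ne hi, h i hi]

instance Ak_normal (k : ℕ) : (Ak k).Normal := by
  constructor
  intro x hx g
  rw [mem_Ak] at hx ⊢
  intro i hi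
  change (g : P) i * (x : P) i * ((g : P) i)⁻¹ = 1
  rw [hx i hi, mul_one, mul_inv_cancel]

theorem card_Ak (k : ℕ) : 2 * Nat.card (Ak k) = ((2 * k + 4) * 6).factorial := by
  have h1 : Nat.card (Ak k) = Nat.card (alternatingGroup (X k)) :=
    Nat.card_congr (MonoidHom.ofInjective (incl_inj k)).symm.toEquiv
  have : Nontrivial (X k) := Fintype.one_lt_card_iff_nontrivial.1 (by rw [card_X]; omega)
  rw [h1, two_mul_nat_card_alternatingGroup, Nat.card_perm, Nat.card_eq_fintype_card, card_X]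

theorem map_Ak (ψ : MulAut G0) (k : ℕ) : (Ak k).map (ψ : G0 →* G0) = Ak k := by
  set B := (Ak k).map (ψ : G0 →* G0) with hB
  have hBn : B.Normal := Subgroup.Normal.map inferInstance _ ψ.surjective
  -- a nontrivial element of `B`
  have hcB : Nat.card B = Nat.card (Ak k) := (Nat.card_congr (ψ.subgroupMap (Ak k)).toEquiv).symm
  obtain ⟨b, hb, hb1⟩ : ∃ b ∈ B, b ≠ 1 := by
    by_contra hcon
    push Not at hcon
    have h1 : B = ⊥ := by rw [eq_bot_iff]; exact fun x hx => hcon x hx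
    rw [h1] at hcB
    have h2 := card_Ak k
    rw [← hcB, Subgroup.card_bot] at h2
    have h3 := Nat.self_le_factorial ((2 * k + 4) * 6)
    omega
  obtain ⟨j, hj⟩ : ∃ j, (b : P) j ≠ 1 := by
    by_contra hcon
    push Not at hcon
    exact hb1 (Subtype.ext (funext hcon))
  obtain ⟨τ, hτ, hτ1⟩ : ∃ τ ∈ alternatingGroup (X j), (b : P) j * τ * ((b : P) j)⁻¹ ≠ τ := by
    by_contra hcon
    push Not at hcon
    exact hj (cent_alt (by rw [card_X]; omega) _ hcon)
  let t : G0 := incl j ⟨τ, hτ⟩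
  have ht : t ∈ Ak j := ⟨_, rfl⟩
  have h1 : b * t * b⁻¹ * t⁻¹ ∈ B ⊓ Ak j := by
    refine ⟨?_, ?_⟩
    · rw [show b * t * b⁻¹ * t⁻¹ = b * (t * b⁻¹ * t⁻¹) by group]
      exact B.mul_mem hb (hBn.conj_mem _ (B.inv_mem hb) _)
    · exact (Ak j).mul_mem ((Ak_normal j).conj_mem _ ht _) ((Ak j).inv_mem ht)
  have h2 : b * t * b⁻¹ * t⁻¹ ≠ 1 := by
    intro h
    rw [mul_inv_eq_one] at h
    apply hτ1
    have h3 := congrFun (congrArg Subtype.val h) j
    change (b : P) j * (t : P) j * ((b : P) j)⁻¹ = (t : P) j at h3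
    rw [incl_apply, Pi.mulSingle_eq_same] at h3
    exact h3
  set c := b * t * b⁻¹ * t⁻¹
  have hnorm : (B ⊓ Ak j).Normal := inferInstance
  have h3 : B ≤ Ak j := by
    have := simpleX k
    have hC : ((B ⊓ Ak j).comap ((ψ : G0 →* G0).comp (incl k))).Normal := inferInstance
    rcases hC.eq_bot_or_eq_top with h | h
    · exfalso
      obtain ⟨x, ⟨σ, rfl⟩, hx⟩ := h1.1
      have h4 : σ ∈ (B ⊓ Ak j).comap ((ψ : G0 →* G0).comp (incl k)) := by
        rw [Subgroup.mem_comap]
        change (ψ : G0 →* G0) (incl k σ) ∈ _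
        rw [hx]
        exact h1
      rw [h, Subgroup.mem_bot] at h4
      apply h2
      rw [← hx, h4, map_one, map_one]
    · rintro _ ⟨x, ⟨σ, rfl⟩, rfl⟩
      have h4 : σ ∈ (B ⊓ Ak j).comap ((ψ : G0 →* G0).comp (incl k)) := by rw [h]; trivial
      exact h4.2
  have h5 : Ak j ≤ B := by
    have := simpleX j
    have hC : ((B ⊓ Ak j).comap (incl j)).Normal := inferInstance
    rcases hC.eq_bot_or_eq_top with h | h
    · exfalso
      obtain ⟨σ, hx⟩ := h1.2
      have h4 : σ ∈ (B ⊓ Ak j).comap (incl j) := by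
        rw [Subgroup.mem_comap, hx]
        exact h1
      rw [h, Subgroup.mem_bot] at h4
      apply h2
      rw [← hx, h4, map_one]
    · rintro _ ⟨σ, rfl⟩
      have h4 : σ ∈ (B ⊓ Ak j).comap (incl j) := by rw [h]; trivial
      exact h4.1
  have h6 : B = Ak j := le_antisymm h3 h5
  have h7 : j = k := by
    rw [h6] at hcB
    have h8 := card_Ak j
    have h9 := card_Ak k
    rw [← hcB, h8] at h9
    have h10 := (Nat.factorial_inj' (n := (2 * j + 4) * 6) (m := (2 * k + 4) * 6) (by omega)).1 h9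
    omega
  rw [h6, h7]

theorem aut_spec (ψ : MulAut G0) : ∃ f : NN, ψ = cj f := by
  have key : ∀ k, ∃ s : Perm (X k), ∀ τ : alternatingGroup (X k),
      ((ψ (incl k τ) : G0) : P) k = s * τ * s⁻¹ := by
    intro k
    let e : alternatingGroup (X k) ≃* Ak k := MonoidHom.ofInjective (incl_inj k)
    have he : ∀ τ, ((e τ : Ak k) : G0) = incl k τ := fun τ => rfl
    let β : MulAut (alternatingGroup (X k)) :=
      e.trans (((ψ.subgroupMap (Ak k)).trans (MulEquiv.subgroupCongr (map_Ak ψ k))).trans e.symm)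
    have hβ : ∀ τ, incl k (β τ) = ψ (incl k τ) := by
      intro τ
      rw [← he]
      exact congrArg Subtype.val (e.apply_symm_apply
        (((ψ.subgroupMap (Ak k)).trans (MulEquiv.subgroupCongr (map_Ak ψ k))) (e τ)))
    obtain ⟨s, hs⟩ := Pool.Agent.H302R6.aut_alt (by rw [card_X]; omega) β
    refine ⟨s, fun τ => ?_⟩
    rw [← hβ, incl_apply, Pi.mulSingle_eq_same]
    exact hs τ
  choose s hs using key
  have h1 : ∀ x : G0, ((ψ x : G0) : P) = (s : P) * x * (s : P)⁻¹ := by
    intro x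
    funext k
    rw [Pi.mul_apply, Pi.mul_apply, Pi.inv_apply]
    have h2 : (s k)⁻¹ * (((ψ x : G0) : P) k)⁻¹ * s k * (x : P) k = 1 := by
      apply cent_alt (by rw [card_X]; omega)
      intro τ hτ
      let t : alternatingGroup (X k) := ⟨τ, hτ⟩
      have hx : sign ((x : P) k) = 1 := sign_G0 x.2 k
      let t' : alternatingGroup (X k) := ⟨(x : P) k * τ * ((x : P) k)⁻¹, by
        rw [mem_alternatingGroup, Perm.sign_mul, Perm.sign_mul, hx, mem_alternatingGroup.1 hτ,
          Perm.sign_inv, hx]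
        rfl⟩
      have h3 : incl k t' = x * incl k t * x⁻¹ := by
        apply Subtype.ext
        change (incl k t' : P) = x * (incl k t : P) * (x : P)⁻¹
        rw [incl_apply, incl_apply]
        funext i
        by_cases hi : i = k
        · subst hi
          rw [Pi.mul_apply, Pi.mul_apply, Pi.inv_apply, Pi.mulSingle_eq_same, Pi.mulSingle_eq_same]
        · rw [Pi.mul_apply, Pi.mul_apply, Pi.inv_apply, Pi.mulSingle_eq_of_ne hi,
            Pi.mulSingle_eq_of_ne hi, mul_one, mul_inv_cancel]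
      have h4 := hs k t'
      rw [h3, map_mul, map_mul, map_inv] at h4
      change ((ψ x : G0) : P) k * ((ψ (incl k t) : G0) : P) k * (((ψ x : G0) : P) k)⁻¹ = _ at h4
      rw [hs k t] at h4
      change ((ψ x : G0) : P) k * (s k * τ * (s k)⁻¹) * (((ψ x : G0) : P) k)⁻¹ =
        s k * ((x : P) k * τ * ((x : P) k)⁻¹) * (s k)⁻¹ at h4
      have h5 : (s k)⁻¹ * (((ψ x : G0) : P) k)⁻¹ * s k * (x : P) k * τ *
          ((s k)⁻¹ * (((ψ x : G0) : P) k)⁻¹ * s k * (x : P) k)⁻¹ =
          (s k)⁻¹ * (((ψ x : G0) : P) k)⁻¹ * (s k * ((x : P) k * τ * ((x : P) k)⁻¹) * (s k)⁻¹) *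
          (((ψ x : G0) : P) k) * s k := by group
      rw [h5, ← h4]
      group
    have h6 : ((ψ x : G0) : P) k * s k = s k * (x : P) k := by
      have h7 : (s k)⁻¹ * (((ψ x : G0) : P) k)⁻¹ * s k * (x : P) k =
        (((ψ x : G0) : P) k * s k)⁻¹ * (s k * (x : P) k) := by group
      rw [h7, inv_mul_eq_one] at h2
      exact h2
    rw [← h6, mul_inv_cancel_right]
  have h2 : (s : P) ∈ NN := by
    rw [mem_NN]
    intro x
    constructor
    · intro hx
      rw [← h1 ⟨x, hx⟩]
      exact (ψ ⟨x, hx⟩).2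
    · intro hx
      obtain ⟨y, hy⟩ := ψ.surjective ⟨_, hx⟩
      have h3 := congrArg Subtype.val hy
      rw [h1] at h3
      change (s : P) * y * (s : P)⁻¹ = (s : P) * x * (s : P)⁻¹ at h3
      have h4 : (y : P) = x := by
        have := mul_right_cancel h3
        exact mul_left_cancel this
      rw [← h4]
      exact y.2
  exact ⟨⟨s, h2⟩, MulEquiv.ext fun x => Subtype.ext (h1 x)⟩

end Pool.Agent.R664.IAS
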