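import Pool.Agent.R664.IAS.Glue

set_option autoImplicit false

namespace Pool.Agent.R664.IAS

open Equiv Equiv.Perm
open Pool.Agent.Helper889.Si

theorem ais {α : Type} (γ : Perm α) (x : α) : γ (γ⁻¹ x) = x := γ.apply_symm_apply x

theorem ias {α : Type} (γ : Perm α) (x : α) : γ⁻¹ (γ x) = x := γ.symm_apply_apply x

/-- the lengths of the cylinders -/
abbrev nn (k : ℕ) : ℕ := 2 * k + 4

instance instNeZeroNn (k : ℕ) : NeZero (nn k) := ⟨by unfold nn; omega⟩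

/-- the finite cylinders -/
abbrev X (k : ℕ) : Type := ZMod (nn k) × F

/-- the product of the symmetric groups of the finite cylinders -/
abbrev P : Type := ∀ k, Perm (X k)

/-- projection from the infinite cylinder -/
def pr (k : ℕ) (x : Y) : X k := ((x.1 : ZMod (nn k)), x.2)

/-- left translations -/
def Lf (j : ℤ) (y : F) : P := fun k =>
  (Equiv.addRight (j : ZMod (nn k))).prodCongr (Equiv.mulLeft y)

/-- left translations of the infinite cylinder -/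
def LY (j : ℤ) (y : F) : Perm Y := (Equiv.addRight j).prodCongr (Equiv.mulLeft y)

/-- right translations -/
def Rf (h : F) : P := fun _ => (Equiv.refl _).prodCongr (Equiv.mulRight h⁻¹)

/-- right translations of the infinite cylinder -/
def RY (h : F) : Perm Y := (Equiv.refl _).prodCongr (Equiv.mulRight h⁻¹)

/-- three-cycles in all coordinates -/
def tr (u v w : Y) : P := fun k => c3 (pr k u) (pr k v) (pr k w)

theorem Lf_apply (j : ℤ) (y : F) (k : ℕ) (x : X k) :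
    Lf j y k x = (x.1 + (j : ZMod (nn k)), y * x.2) := rfl

theorem LY_apply (j : ℤ) (y : F) (x : Y) : LY j y x = (x.1 + j, y * x.2) := rfl

theorem Rf_apply (h : F) (k : ℕ) (x : X k) : Rf h k x = (x.1, x.2 * h⁻¹) := rfl

theorem RY_apply (h : F) (x : Y) : RY h x = (x.1, x.2 * h⁻¹) := rfl

theorem pr_LY (k : ℕ) (j : ℤ) (y : F) (x : Y) : Lf j y k (pr k x) = pr k (LY j y x) := by
  rw [Lf_apply, LY_apply, pr, pr]
  simp

theorem pr_RY (k : ℕ) (h : F) (x : Y) : Rf h k (pr k x) = pr k (RY h x) := by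
  rw [Rf_apply, RY_apply, pr, pr]

theorem Lf_mul (j j' : ℤ) (y y' : F) : Lf j y * Lf j' y' = Lf (j + j') (y * y') := by
  funext k
  ext1 x
  rw [Pi.mul_apply, Perm.mul_apply, Lf_apply, Lf_apply, Lf_apply]
  push_cast
  exact Prod.ext (by ring) (by simp only [mul_assoc])

theorem Lf_zero : Lf 0 1 = 1 := by
  funext k
  ext1 x
  rw [Lf_apply]
  simp

theorem Lf_inv (j : ℤ) (y : F) : (Lf j y)⁻¹ = Lf (-j) y⁻¹ := by
  rw [inv_eq_iff_mul_eq_one, Lf_mul, ← Lf_zero]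
  congr 1
  · ring
  · simp

theorem Rf_Lf (h : F) (j : ℤ) (y : F) : Rf h * Lf j y = Lf j y * Rf h := by
  funext k
  ext1 x
  rw [Pi.mul_apply, Pi.mul_apply, Perm.mul_apply, Perm.mul_apply, Lf_apply, Rf_apply, Rf_apply,
    Lf_apply]
  simp only [mul_assoc]

theorem Rf_mul (h h' : F) : Rf h * Rf h' = Rf (h * h') := by
  funext k
  ext1 x
  rw [Pi.mul_apply, Perm.mul_apply, Rf_apply, Rf_apply, Rf_apply]
  simp only [mul_inv_rev, mul_assoc]

theorem Rf_one : Rf 1 = 1 := by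
  funext k
  ext1 x
  rw [Rf_apply]
  simp

theorem Rf_inv (h : F) : (Rf h)⁻¹ = Rf h⁻¹ := by
  rw [inv_eq_iff_mul_eq_one, Rf_mul, mul_inv_cancel, Rf_one]

/-- `g` lifts to the infinite cylinder -/
def Glob (g : P) (δ : Perm Y) : Prop := ∀ k x, g k (pr k x) = pr k (δ x)

theorem glob_Lf (j : ℤ) (y : F) : Glob (Lf j y) (LY j y) := fun k x => pr_LY k j y x

theorem glob_Rf (h : F) : Glob (Rf h) (RY h) := fun k x => pr_RY k h x

theorem conj_tr {g : P} {δ : Perm Y} (h : Glob g δ) (u v w : Y) :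
    g * tr u v w * g⁻¹ = tr (δ u) (δ v) (δ w) := by
  funext k
  rw [Pi.mul_apply, Pi.mul_apply, Pi.inv_apply, tr, tr, c3_conj, h, h, h]

theorem pr_surj (k : ℕ) : Function.Surjective (pr k) := by
  rintro ⟨i, z⟩
  obtain ⟨j, rfl⟩ := ZMod.intCast_surjective i
  exact ⟨(j, z), rfl⟩

theorem pr_eq_iff (k : ℕ) (x y : Y) : pr k x = pr k y ↔ ((nn k : ℤ) ∣ x.1 - y.1) ∧ x.2 = y.2 := by
  rw [pr, pr, Prod.mk.injEq, eq_comm, ZMod.intCast_eq_intCast_iff_dvd_sub]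

theorem not_pr (S : Finset Y) : ∃ w : ℕ, ∀ (k : ℕ) (i : ℤ), (w : ℤ) ≤ i → i + w ≤ nn k →
    ∀ z : F, ∀ x ∈ S, pr k x ≠ pr k (i, z) := by
  refine ⟨S.sup (fun x => x.1.natAbs) + 1, fun k i h1 h2 z x hx h => ?_⟩
  have hB : x.1.natAbs ≤ S.sup (fun x => x.1.natAbs) := Finset.le_sup (f := fun x => x.1.natAbs) hx
  rw [pr_eq_iff] at h
  obtain ⟨⟨q, hq⟩, _⟩ := h
  simp only at hq
  set B := S.sup (fun x => x.1.natAbs)
  push_cast at h1 h2 hq
  have h3 : x.1 - i < 0 := by omega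
  have h4 : -(2 * (k : ℤ) + 4) < x.1 - i := by omega
  rw [hq] at h3 h4
  have h5 : (0 : ℤ) < 2 * k + 4 := by positivity
  have h6 : q < 0 := by
    by_contra hc
    have : 0 ≤ (2 * (k : ℤ) + 4) * q := mul_nonneg h5.le (not_lt.1 hc)
    omega
  have h7 : (2 * (k : ℤ) + 4) * q ≤ (2 * (k : ℤ) + 4) * (-1) :=
    mul_le_mul_of_nonneg_left (by omega) h5.le
  omega

theorem pr_inj (S : Finset Y) : ∃ k0 : ℕ, ∀ k ≥ k0, ∀ x ∈ S, ∀ y ∈ S, pr k x = pr k y → x = y := by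
  refine ⟨2 * S.sup (fun x => x.1.natAbs) + 1, fun k hk x hx y hy h => ?_⟩
  have hB : x.1.natAbs ≤ S.sup (fun x => x.1.natAbs) := Finset.le_sup (f := fun x => x.1.natAbs) hx
  have hB' : y.1.natAbs ≤ S.sup (fun x => x.1.natAbs) :=
    Finset.le_sup (f := fun x => x.1.natAbs) hy
  rw [pr_eq_iff] at h
  obtain ⟨h1, h2⟩ := h
  have h3 : x.1 - y.1 = 0 := by
    apply Int.eq_zero_of_abs_lt_dvd h1
    rw [abs_lt]
    push_cast
    constructor <;> omega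
  exact Prod.ext (by omega) h2

/-- `h` is, in all large coordinates, the image of the permutation `γ` supported in `S` -/
def Fam (h : P) (γ : Perm Y) (S : Finset Y) : Prop :=
  (∀ x, x ∉ S → γ x = x) ∧ ∃ k0 : ℕ, ∀ k ≥ k0, (∀ x ∈ S, h k (pr k x) = pr k (γ x)) ∧
    ∀ y : X k, (∀ x ∈ S, pr k x ≠ y) → h k y = y

theorem fix_mem {γ : Perm Y} {S : Finset Y} (h : ∀ x, x ∉ S → γ x = x) {x : Y} (hx : x ∈ S) :
    γ x ∈ S := by
  by_contra hc
  have := h _ hc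
  rw [γ.injective this] at hc
  exact hc hx

theorem fix_mem_inv {γ : Perm Y} {S : Finset Y} (h : ∀ x, x ∉ S → γ x = x) {x : Y} (hx : x ∈ S) :
    γ⁻¹ x ∈ S := by
  by_contra hc
  have h1 := h _ hc
  rw [ais] at h1
  rw [← h1] at hc
  exact hc hx

theorem Fam.one : Fam 1 1 ∅ := ⟨fun _ _ => rfl, 0, fun _ _ => ⟨fun _ _ => rfl, fun _ _ => rfl⟩⟩

theorem Fam.mono {h : P} {γ : Perm Y} {S S' : Finset Y} (hf : Fam h γ S) (hS : S ⊆ S') :
    Fam h γ S' := by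
  obtain ⟨h1, k0, h2⟩ := hf
  obtain ⟨k1, h3⟩ := pr_inj S'
  refine ⟨fun x hx => h1 x fun hx' => hx (hS hx'), max k0 k1, fun k hk => ⟨fun x hx => ?_, ?_⟩⟩
  · by_cases hxS : x ∈ S
    · exact (h2 k (le_trans (le_max_left _ _) hk)).1 x hxS
    · rw [h1 x hxS]
      refine (h2 k (le_trans (le_max_left _ _) hk)).2 _ fun x' hx' h => hxS ?_
      rw [← h3 k (le_trans (le_max_right _ _) hk) x' (hS hx') x hx h]
      exact hx'
  · intro y hy
    exact (h2 k (le_trans (le_max_left _ _) hk)).2 y fun x hx => hy x (hS hx)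

theorem Fam.mul {h h' : P} {γ γ' : Perm Y} {S S' : Finset Y} (hf : Fam h γ S)
    (hf' : Fam h' γ' S') : Fam (h * h') (γ * γ') (S ∪ S') := by
  obtain ⟨h1, k0, h2⟩ := hf.mono (Finset.subset_union_left (s₂ := S'))
  obtain ⟨h1', k0', h2'⟩ := hf'.mono (Finset.subset_union_right (s₁ := S))
  refine ⟨fun x hx => ?_, max k0 k0', fun k hk => ⟨fun x hx => ?_, fun y hy => ?_⟩⟩
  · rw [Perm.mul_apply, h1' x hx, h1 x hx]
  · rw [Pi.mul_apply, Perm.mul_apply, (h2' k (le_trans (le_max_right _ _) hk)).1 x hx,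
      (h2 k (le_trans (le_max_left _ _) hk)).1 _ (fix_mem h1' hx)]
    rfl
  · rw [Pi.mul_apply, Perm.mul_apply, (h2' k (le_trans (le_max_right _ _) hk)).2 y hy,
      (h2 k (le_trans (le_max_left _ _) hk)).2 y hy]

theorem Fam.inv {h : P} {γ : Perm Y} {S : Finset Y} (hf : Fam h γ S) : Fam h⁻¹ γ⁻¹ S := by
  obtain ⟨h1, k0, h2⟩ := hf
  refine ⟨fun x hx => ?_, k0, fun k hk => ⟨fun x hx => ?_, fun y hy => ?_⟩⟩
  · rw [Perm.inv_eq_iff_eq]; exact (h1 x hx).symm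
  · rw [Pi.inv_apply, Perm.inv_eq_iff_eq, (h2 k hk).1 _ (fix_mem_inv h1 hx),
      ais]
  · rw [Pi.inv_apply, Perm.inv_eq_iff_eq, (h2 k hk).2 y hy]

theorem Fam.conj {h : P} {γ : Perm Y} {S : Finset Y} (hf : Fam h γ S) {g : P} {δ : Perm Y}
    (hg : Glob g δ) : Fam (g * h * g⁻¹) (δ * γ * δ⁻¹) (S.map δ.toEmbedding) := by
  obtain ⟨h1, k0, h2⟩ := hf
  refine ⟨fun x hx => ?_, k0, fun k hk => ⟨fun x hx => ?_, fun y hy => ?_⟩⟩
  · have h3 : δ⁻¹ x ∉ S := by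
      intro h
      apply hx
      rw [Finset.mem_map]
      exact ⟨δ⁻¹ x, h, by simp⟩
    rw [Perm.mul_apply, Perm.mul_apply, h1 _ h3, ais]
  · rw [Finset.mem_map] at hx
    obtain ⟨x, hx, rfl⟩ := hx
    change (g k * h k * (g k)⁻¹) (pr k (δ x)) = pr k (δ (γ (δ⁻¹ (δ x))))
    rw [← hg, Perm.mul_apply, Perm.mul_apply, ias, ias,
      (h2 k hk).1 x hx, hg]
  · change (g k * h k * (g k)⁻¹) y = y
    rw [Perm.mul_apply, Perm.mul_apply, (h2 k hk).2 _ ?_, ais]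
    intro x hx hxy
    apply hy (δ x) (by rw [Finset.mem_map]; exact ⟨x, hx, rfl⟩)
    rw [← hg, hxy, ais]

/-- eventually finitary families -/
def FS : Subgroup P where
  carrier := {h | ∃ γ S, Fam h γ S}
  mul_mem' := by
    rintro h h' ⟨γ, S, hf⟩ ⟨γ', S', hf'⟩
    exact ⟨_, _, hf.mul hf'⟩
  one_mem' := ⟨1, ∅, Fam.one⟩
  inv_mem' := by
    rintro h ⟨γ, S, hf⟩
    exact ⟨_, _, hf.inv⟩

theorem mem_FS {h : P} : h ∈ FS ↔ ∃ γ S, Fam h γ S := Iff.rfl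

theorem FS_conj {g : P} {δ : Perm Y} (hg : Glob g δ) {h : P} (hh : h ∈ FS) : g * h * g⁻¹ ∈ FS := by
  obtain ⟨γ, S, hf⟩ := hh
  exact ⟨_, _, hf.conj hg⟩

theorem fam_tr {u v w : Y} (h1 : u ≠ v) (h2 : u ≠ w) (h3 : v ≠ w) :
    Fam (tr u v w) (c3 u v w) {u, v, w} := by
  obtain ⟨k0, hk0⟩ := pr_inj {u, v, w}
  refine ⟨fun x hx => ?_, k0, fun k hk => ?_⟩
  · simp only [Finset.mem_insert, Finset.mem_singleton, not_or] at hx
    exact c3_fix hx.1 hx.2.1 hx.2.2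
  have e1 : pr k u ≠ pr k v := fun h => h1 (hk0 k hk u (by simp) v (by simp) h)
  have e2 : pr k u ≠ pr k w := fun h => h2 (hk0 k hk u (by simp) w (by simp) h)
  have e3 : pr k v ≠ pr k w := fun h => h3 (hk0 k hk v (by simp) w (by simp) h)
  refine ⟨fun x hx => ?_, fun y hy => ?_⟩
  · simp only [Finset.mem_insert, Finset.mem_singleton] at hx
    rcases hx with rfl | rfl | rfl
    · rw [tr, c3_1 e1 e2, c3_1 h1 h2]
    · rw [tr, c3_2 e2 e3, c3_2 h2 h3]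
    · rw [tr, c3_3, c3_3]
  · exact c3_fix (hy u (by simp)).symm (hy v (by simp)).symm (hy w (by simp)).symm

/-- `Lf j y` times a finitary family -/
def DD : Subgroup P where
  carrier := {f | ∃ j y, (Lf j y)⁻¹ * f ∈ FS}
  mul_mem' := by
    rintro f f' ⟨j, y, h⟩ ⟨j', y', h'⟩
    refine ⟨j + j', y * y', ?_⟩
    have e : (Lf (j + j') (y * y'))⁻¹ * (f * f') =
        ((Lf j' y')⁻¹ * ((Lf j y)⁻¹ * f) * ((Lf j' y')⁻¹)⁻¹) * ((Lf j' y')⁻¹ * f') := by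
      rw [← Lf_mul]; group
    rw [e]
    refine FS.mul_mem ?_ h'
    rw [Lf_inv j' y']
    exact FS_conj (glob_Lf _ _) h
  one_mem' := ⟨0, 1, by rw [Lf_zero, mul_one, inv_one]; exact FS.one_mem⟩
  inv_mem' := by
    rintro f ⟨j, y, h⟩
    refine ⟨-j, y⁻¹, ?_⟩
    have e : (Lf (-j) y⁻¹)⁻¹ * f⁻¹ = Lf j y * ((Lf j y)⁻¹ * f)⁻¹ * (Lf j y)⁻¹ := by
      rw [← Lf_inv]; group
    rw [e]
    exact FS_conj (glob_Lf _ _) (FS.inv_mem h)

/-- `f` is of type `(j, y)` -/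
def HasType (f : P) (j : ℤ) (y : F) : Prop := (Lf j y)⁻¹ * f ∈ FS

theorem mem_DD {f : P} : f ∈ DD ↔ ∃ j y, HasType f j y := Iff.rfl

theorem Lf_mem_FS {j : ℤ} {y : F} (h : Lf j y ∈ FS) : j = 0 ∧ y = 1 := by
  obtain ⟨γ, S, h1, k0, h2⟩ := h
  obtain ⟨w, hw⟩ := not_pr S
  have h3 : ∀ k ≥ max k0 (w + j.natAbs), pr k (LY j y (w, 1)) = pr k (w, 1) := by
    intro k hk
    rw [← pr_LY]
    refine (h2 k (le_trans (le_max_left _ _) hk)).2 _ fun x hx => hw k w le_rfl ?_ 1 x hx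
    have := le_trans (le_max_right _ _) hk
    push_cast
    omega
  have h4 := h3 _ le_rfl
  rw [pr_eq_iff, LY_apply] at h4
  simp only [mul_one, add_sub_cancel_left] at h4
  refine ⟨?_, h4.2⟩
  apply Int.eq_zero_of_abs_lt_dvd h4.1
  have := le_max_right k0 (w + j.natAbs)
  rw [Int.abs_eq_natAbs]
  unfold nn
  push_cast
  omega

theorem HasType.unique {f : P} {j j' : ℤ} {y y' : F} (h : HasType f j y) (h' : HasType f j' y') :
    j = j' ∧ y = y' := by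
  have h2 : (Lf j y)⁻¹ * Lf j' y' ∈ FS := by
    have := FS.mul_mem h (FS.inv_mem h')
    have e : (Lf j y)⁻¹ * f * ((Lf j' y')⁻¹ * f)⁻¹ = (Lf j y)⁻¹ * Lf j' y' := by group
    rwa [e] at this
  rw [Lf_inv, Lf_mul] at h2
  obtain ⟨h3, h4⟩ := Lf_mem_FS h2
  refine ⟨by omega, ?_⟩
  rw [inv_mul_eq_one] at h4
  exact h4

theorem HasType.mul {f f' : P} {j j' : ℤ} {y y' : F} (h : HasType f j y) (h' : HasType f' j' y') :
    HasType (f * f') (j + j') (y * y') := by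
  rw [HasType]
  have e : (Lf (j + j') (y * y'))⁻¹ * (f * f') =
      ((Lf j' y')⁻¹ * ((Lf j y)⁻¹ * f) * ((Lf j' y')⁻¹)⁻¹) * ((Lf j' y')⁻¹ * f') := by
    rw [← Lf_mul]; group
  rw [e]
  refine FS.mul_mem ?_ h'
  rw [Lf_inv j' y']
  exact FS_conj (glob_Lf _ _) h

theorem HasType.inv {f : P} {j : ℤ} {y : F} (h : HasType f j y) : HasType f⁻¹ (-j) y⁻¹ := by
  rw [HasType]
  have e : (Lf (-j) y⁻¹)⁻¹ * f⁻¹ = Lf j y * ((Lf j y)⁻¹ * f)⁻¹ * (Lf j y)⁻¹ := by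
    rw [← Lf_inv]; group
  rw [e]
  exact FS_conj (glob_Lf _ _) (FS.inv_mem h)

theorem hasType_Lf (j : ℤ) (y : F) : HasType (Lf j y) j y := by
  rw [HasType, inv_mul_cancel]; exact FS.one_mem

theorem hasType_FS {f : P} (h : f ∈ FS) : HasType f 0 1 := by
  rw [HasType, Lf_zero, inv_one, one_mul]; exact h

theorem FS_of_hasType {f : P} (h : HasType f 0 1) : f ∈ FS := by
  rw [HasType, Lf_zero, inv_one, one_mul] at h; exact h

theorem HasType.pow {f : P} {j : ℤ} {y : F} (h : HasType f j y) (n : ℕ) :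
    HasType (f ^ n) (n * j) (y ^ n) := by
  induction n with
  | zero => simpa using hasType_FS FS.one_mem
  | succ n ih =>
    rw [pow_succ, pow_succ]
    have := ih.mul h
    rwa [show (n : ℤ) * j + j = ((n + 1 : ℕ) : ℤ) * j by push_cast; ring] at this

/-- the generators -/
def gens : Set P := {Lf 1 1} ∪ Set.range (Lf 0) ∪
  {g | ∃ u v w : Y, (u.1 = 0 ∨ u.1 = 1) ∧ (v.1 = 0 ∨ v.1 = 1) ∧ (w.1 = 0 ∨ w.1 = 1) ∧
    u ≠ v ∧ u ≠ w ∧ v ≠ w ∧ g = tr u v w}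

/-- the group -/
def G0 : Subgroup P := Subgroup.closure gens

theorem G0_le_DD : G0 ≤ DD := by
  rw [G0, Subgroup.closure_le]
  rintro g ((rfl | ⟨y, rfl⟩) | ⟨u, v, w, _, _, _, h1, h2, h3, rfl⟩)
  · exact ⟨_, _, hasType_Lf _ _⟩
  · exact ⟨_, _, hasType_Lf _ _⟩
  · exact ⟨_, _, hasType_FS ⟨_, _, fam_tr h1 h2 h3⟩⟩

theorem Lf_mem (j : ℤ) (y : F) : Lf j y ∈ G0 := by
  have h1 : Lf 1 1 ∈ G0 := Subgroup.subset_closure (Or.inl (Or.inl rfl))
  have h2 : ∀ y, Lf 0 y ∈ G0 := fun y => Subgroup.subset_closure (Or.inl (Or.inr ⟨y, rfl⟩))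
  have h3 : ∀ n : ℕ, Lf n 1 ∈ G0 := by
    intro n
    induction n with
    | zero => exact h2 1
    | succ n ih =>
      have := G0.mul_mem ih h1
      rw [Lf_mul] at this
      simpa using this
  have h4 : ∀ j : ℤ, Lf j 1 ∈ G0 := by
    intro j
    rcases Int.natAbs_eq j with h | h
    · rw [h]; exact h3 _
    · rw [h]
      have := G0.inv_mem (h3 j.natAbs)
      rwa [Lf_inv, inv_one] at this
  have := G0.mul_mem (h4 j) (h2 y)
  rwa [Lf_mul, add_zero, one_mul] at this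

theorem tr_mem {j : ℤ} {u v w : Y} (hu : u.1 = j ∨ u.1 = j + 1) (hv : v.1 = j ∨ v.1 = j + 1)
    (hw : w.1 = j ∨ w.1 = j + 1) (h1 : u ≠ v) (h2 : u ≠ w) (h3 : v ≠ w) : tr u v w ∈ G0 := by
  have h4 : tr (LY (-j) 1 u) (LY (-j) 1 v) (LY (-j) 1 w) ∈ G0 := by
    refine Subgroup.subset_closure (Or.inr ⟨_, _, _, ?_, ?_, ?_, ?_, ?_, ?_, rfl⟩)
    · simp only [LY_apply]; omega
    · simp only [LY_apply]; omega
    · simp only [LY_apply]; omega
    · exact fun h => h1 ((LY (-j) 1).injective h)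
    · exact fun h => h2 ((LY (-j) 1).injective h)
    · exact fun h => h3 ((LY (-j) 1).injective h)
  have h5 := G0.mul_mem (G0.mul_mem (Lf_mem j 1) h4) (G0.inv_mem (Lf_mem j 1))
  rw [conj_tr (glob_Lf j 1)] at h5
  have h6 : ∀ x : Y, LY j 1 (LY (-j) 1 x) = x := by
    intro x
    simp only [LY_apply]
    exact Prod.ext (by simp) (by simp)
  rwa [h6, h6, h6] at h5

end Pool.Agent.R664.IAS
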