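import Mathlib

/-!
# Residual finiteness, outer automorphism groups and inner automorphism separability
-/

set_option autoImplicit false

namespace Pool.Agent.R664.IAS

/-- `G` is residually finite: every nontrivial element survives in a homomorphism to a finite
group. -/
def RF (G : Type) [Group G] : Prop :=
  ∀ g : G, g ≠ 1 → ∃ (Q : Type) (_ : Group Q) (_ : Finite Q) (φ : G →* Q), φ g ≠ 1

/-- the group of inner automorphisms -/
abbrev Inn (G : Type) [Group G] : Subgroup (MulAut G) := (MulAut.conj : G →* MulAut G).range

instance instInnNormal (G : Type) [Group G] : (Inn G).Normal := by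
  constructor
  rintro _ ⟨g, rfl⟩ φ
  refine ⟨φ g, ?_⟩
  ext x
  change φ g * x * (φ g)⁻¹ = φ (g * φ⁻¹ x * g⁻¹)
  rw [map_mul, map_mul, map_inv]
  congr 2
  exact (φ.apply_symm_apply x).symm

/-- the outer automorphism group `Aut G / Inn G` -/
abbrev Out (G : Type) [Group G] : Type := MulAut G ⧸ Inn G

/-- the automorphism of `G/K` induced by an automorphism of `G`, for `K` characteristic:
`gK ↦ φ(g)K` -/
def induced {G : Type} [Group G] (K : Subgroup G) [hK : K.Characteristic] (φ : MulAut G) :
    MulAut (G ⧸ K) :=
  QuotientGroup.congr K K φ (Subgroup.characteristic_iff_map_eq.mp hK φ)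

theorem induced_mk {G : Type} [Group G] (K : Subgroup G) [hK : K.Characteristic] (φ : MulAut G)
    (g : G) : induced K φ (QuotientGroup.mk g) = QuotientGroup.mk (φ g) := rfl

/-- `G` is inner automorphism separable: for every non-inner automorphism `φ` there is a
characteristic subgroup `K` of finite index such that `φ` induces a non-inner automorphism of
`G/K`. -/
def InnerAutSeparable (G : Type) [Group G] : Prop :=
  ∀ φ : MulAut G, φ ∉ Inn G → ∃ (K : Subgroup G) (_ : K.Characteristic),
    K.FiniteIndex ∧ induced K φ ∉ Inn (G ⧸ K)

end Pool.Agent.R664.IAS
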