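import Mathlib
import Pool.Agent.Helper889.Si.AltGen

set_option autoImplicit false

namespace Pool.Agent.R664.IAS

open Equiv Equiv.Perm
open Pool.Agent.Helper889.Si

section
variable {α : Type} [DecidableEq α]

theorem c3_inv {a b c : α} (h1 : a ≠ b) (h2 : a ≠ c) (h3 : b ≠ c) : (c3 a b c)⁻¹ = c3 b a c := by
  rw [inv_eq_iff_mul_eq_one]
  ext1 x
  rw [Perm.mul_apply, Perm.one_apply]
  by_cases hxa : x = a
  · subst hxa; rw [c3_2 h3 h2, c3_3]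
  · by_cases hxb : x = b
    · subst hxb; rw [c3_1 h1.symm h3, c3_1 h1 h2]
    · by_cases hxc : x = c
      · subst hxc; rw [c3_3, c3_2 h2 h3]
      · rw [c3_fix hxb hxa hxc, c3_fix hxa hxb hxc]

/-- three-cycles through two fixed points generate all three-cycles -/
theorem glue3 (H : Subgroup (Perm α)) (S : Set α) (p p' : α) (hne : p ≠ p')
    (h : ∀ x ∈ S, x ≠ p → x ≠ p' → c3 p p' x ∈ H) :
    ∀ a ∈ S, ∀ b ∈ S, ∀ c ∈ S, a ≠ b → a ≠ c → b ≠ c → c3 a b c ∈ H := by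
  have conj : ∀ {g : Perm α}, g ∈ H → ∀ {a b c : α}, c3 a b c ∈ H →
      c3 (g a) (g b) (g c) ∈ H := by
    intro g hg a b c h
    rw [← c3_conj]
    exact mul_mem (mul_mem hg h) (inv_mem hg)
  have rot : ∀ {a b c : α}, a ≠ b → a ≠ c → b ≠ c → c3 a b c ∈ H → c3 b c a ∈ H := by
    intro a b c h1 h2 h3 h
    rwa [← c3_rot h1 h2 h3]
  -- both
  have hA : ∀ x ∈ S, x ≠ p → x ≠ p' → c3 p' p x ∈ H := by
    intro x hx h1 h2
    have := H.inv_mem (h x hx h1 h2)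
    rwa [c3_inv hne (Ne.symm h1) (Ne.symm h2)] at this
  -- only `p'`
  have hB : ∀ x ∈ S, ∀ y ∈ S, x ≠ p → x ≠ p' → y ≠ p → y ≠ p' → x ≠ y → c3 p' x y ∈ H := by
    intro x hx y hy h1 h2 h3 h4 h5
    have := conj (h x hx h1 h2) (h y hy h3 h4)
    rwa [c3_1 hne (Ne.symm h1), c3_2 (Ne.symm h1) (Ne.symm h2), c3_fix h3 h4 (Ne.symm h5)] at this
  -- only `p`
  have hC : ∀ x ∈ S, ∀ y ∈ S, x ≠ p → x ≠ p' → y ≠ p → y ≠ p' → x ≠ y → c3 p x y ∈ H := by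
    intro x hx y hy h1 h2 h3 h4 h5
    have := conj (hA x hx h1 h2) (hA y hy h3 h4)
    rwa [c3_1 hne.symm (Ne.symm h2), c3_2 (Ne.symm h2) (Ne.symm h1),
      c3_fix h4 h3 (Ne.symm h5)] at this
  -- none
  have hD : ∀ x ∈ S, ∀ y ∈ S, ∀ z ∈ S, x ≠ p → x ≠ p' → y ≠ p → y ≠ p' → z ≠ p → z ≠ p' →
      x ≠ y → x ≠ z → y ≠ z → c3 z x y ∈ H := by
    intro x hx y hy z hz h1 h2 h3 h4 h5 h6 h7 h8 h9
    have := conj (h z hz h5 h6) (hB x hx y hy h1 h2 h3 h4 h7)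
    rwa [c3_2 (Ne.symm h5) (Ne.symm h6), c3_fix h1 h2 h8, c3_fix h3 h4 h9] at this
  intro a ha b hb c hc hab hac hbc
  by_cases h1 : a = p
  · subst h1
    by_cases h2 : b = p'
    · subst h2
      exact h c hc (Ne.symm hac) (Ne.symm hbc)
    · by_cases h3 : c = p'
      · subst h3
        exact rot hne.symm (Ne.symm hbc) hab (hA b hb (Ne.symm hab) hbc)
      · exact hC b hb c hc (Ne.symm hab) h2 (Ne.symm hac) h3 hbc
  by_cases h2 : a = p'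
  · subst h2
    by_cases h2 : b = p
    · subst h2
      exact hA c hc (Ne.symm hbc) (Ne.symm hac)
    · by_cases h3 : c = p
      · subst h3
        exact rot hne (Ne.symm hbc) hab (h b hb hbc (Ne.symm hab))
      · exact hB b hb c hc h2 (Ne.symm hab) h3 (Ne.symm hac) hbc
  by_cases h3 : b = p
  · subst h3
    refine rot hac.symm hbc.symm hab ?_
    refine rot hbc hab.symm hac.symm ?_
    by_cases h4 : c = p'
    · subst h4
      exact h a ha hab hac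
    · exact hC c hc a ha (Ne.symm hbc) h4 h1 h2 (Ne.symm hac)
  by_cases h4 : b = p'
  · subst h4
    refine rot hac.symm hbc.symm hab ?_
    refine rot hbc hab.symm hac.symm ?_
    by_cases h5 : c = p
    · subst h5
      exact hA a ha hac hab
    · exact hB c hc a ha h5 (Ne.symm hbc) h1 h2 (Ne.symm hac)
  by_cases h5 : c = p
  · subst h5
    refine rot hac.symm hbc.symm hab ?_
    exact hC a ha b hb h1 h2 h3 h4 hab
  by_cases h6 : c = p'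
  · subst h6
    refine rot hac.symm hbc.symm hab ?_
    exact hB a ha b hb h1 h2 h3 h4 hab
  exact hD b hb c hc a ha h3 h4 h5 h6 h1 h2 hbc hab.symm hac.symm

end

/-- the group `S_3` -/
abbrev F : Type := Perm (Fin 3)

/-- the infinite cylinder -/
abbrev Y : Type := ℤ × F

/-- the transposition -/
def sg : F := swap 0 1

theorem sg_ne : (1 : F) ≠ sg := by decide

/-- gluing of windows -/
theorem glueY {α : Type} [DecidableEq α] (π : Y → α) (H : Subgroup (Perm α))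
    (hπ : ∀ j : ℤ, π (j, 1) ≠ π (j, sg))
    (h : ∀ (j : ℤ) (u v w : Y), (u.1 = j ∨ u.1 = j + 1) → (v.1 = j ∨ v.1 = j + 1) →
      (w.1 = j ∨ w.1 = j + 1) → π u ≠ π v → π u ≠ π w → π v ≠ π w →
      c3 (π u) (π v) (π w) ∈ H) (u v w : Y) (h1 : π u ≠ π v) (h2 : π u ≠ π w)
    (h3 : π v ≠ π w) : c3 (π u) (π v) (π w) ∈ H := by
  have key : ∀ (m : ℤ) (t : ℕ), ∀ a ∈ π '' {x : Y | m ≤ x.1 ∧ x.1 ≤ m + t + 1},
      ∀ b ∈ π '' {x : Y | m ≤ x.1 ∧ x.1 ≤ m + t + 1},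
      ∀ c ∈ π '' {x : Y | m ≤ x.1 ∧ x.1 ≤ m + t + 1}, a ≠ b → a ≠ c → b ≠ c → c3 a b c ∈ H := by
    intro m t
    induction t with
    | zero =>
      rintro _ ⟨a, ha, rfl⟩ _ ⟨b, hb, rfl⟩ _ ⟨c, hc, rfl⟩
      simp only [Set.mem_ofPred_eq, Nat.cast_zero, add_zero] at ha hb hc
      exact h m a b c (by omega) (by omega) (by omega)
    | succ t ih =>
      refine glue3 H _ (π (m + t + 1, 1)) (π (m + t + 1, sg)) (hπ _) ?_
      rintro _ ⟨x, hx, rfl⟩ hx1 hx2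
      simp only [Set.mem_ofPred_eq, Nat.cast_add, Nat.cast_one] at hx
      by_cases hx3 : x.1 ≤ m + t + 1
      · refine ih _ ⟨_, ?_, rfl⟩ _ ⟨_, ?_, rfl⟩ _ ⟨x, ?_, rfl⟩ (hπ _) (Ne.symm hx1)
          (Ne.symm hx2)
        · simp only [Set.mem_ofPred_eq]; omega
        · simp only [Set.mem_ofPred_eq]; omega
        · simp only [Set.mem_ofPred_eq]; omega
      · exact h (m + t + 1) _ _ x (Or.inl rfl) (Or.inl rfl) (Or.inr (by omega)) (hπ _)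
          (Ne.symm hx1) (Ne.symm hx2)
  obtain ⟨m, hm1, hm2, hm3⟩ : ∃ m : ℤ, m ≤ u.1 ∧ m ≤ v.1 ∧ m ≤ w.1 :=
    ⟨min u.1 (min v.1 w.1), by omega, by omega, by omega⟩
  obtain ⟨t, ht1, ht2, ht3⟩ : ∃ t : ℕ, u.1 ≤ m + t + 1 ∧ v.1 ≤ m + t + 1 ∧ w.1 ≤ m + t + 1 :=
    ⟨(max u.1 (max v.1 w.1) - m).toNat, by omega, by omega, by omega⟩
  exact key m t _ ⟨u, ⟨hm1, ht1⟩, rfl⟩ _ ⟨v, ⟨hm2, ht2⟩, rfl⟩ _ ⟨w, ⟨hm3, ht3⟩, rfl⟩ h1 h2 h3

end Pool.Agent.R664.IAS
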