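import Pool.Agent.R664.IAS.Norm

set_option autoImplicit false

namespace Pool.Agent.R664.IAS

open Equiv Equiv.Perm
open Pool.Agent.Helper889.Si

/-- the types of the conjugates of the translations -/
def Data (f : P) (d : Bool × F × (F → F)) : Prop :=
  HasType (f * Lf 1 1 * f⁻¹) (if d.1 then 1 else -1) d.2.1 ∧
    ∀ y, HasType (f * Lf 0 y * f⁻¹) 0 (d.2.2 y)

theorem exists_type {x : P} (hx : x ∈ G0) : ∃ j y, HasType x j y := G0_le_DD hx

theorem type_dvd {f : P} (hf : f ∈ NN) {j : ℤ} {a : F} (h : HasType (f * Lf 1 1 * f⁻¹) j a)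
    (h0 : ∀ y, ∃ b, HasType (f * Lf 0 y * f⁻¹) 0 b) {x : P} (hx : x ∈ G0) :
    ∃ i b, HasType (f * x * f⁻¹) i b ∧ j ∣ i := by
  induction hx using Subgroup.closure_induction with
  | mem x hx =>
    rcases hx with (rfl | ⟨y, rfl⟩) | ⟨u, v, w, hu, hv, hw, h1, h2, h3, rfl⟩
    · exact ⟨_, _, h, dvd_rfl⟩
    · obtain ⟨b, hb⟩ := h0 y
      exact ⟨_, _, hb, dvd_zero _⟩
    · have ht : tr u v w ∈ G0 := tr_mem0 hu hv hw h1 h2 h3
      exact ⟨_, _, hasType_FS (FS_conj_NN hf ht ⟨_, _, fam_tr h1 h2 h3⟩), dvd_zero _⟩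
  | one =>
    refine ⟨0, 1, ?_, dvd_zero _⟩
    rw [mul_one, mul_inv_cancel]
    exact hasType_FS FS.one_mem
  | mul x y _ _ hx hy =>
    obtain ⟨i, b, h1, h2⟩ := hx
    obtain ⟨i', b', h1', h2'⟩ := hy
    refine ⟨i + i', b * b', ?_, dvd_add h2 h2'⟩
    have e : f * (x * y) * f⁻¹ = (f * x * f⁻¹) * (f * y * f⁻¹) := by group
    rw [e]
    exact h1.mul h1'
  | inv x _ hx =>
    obtain ⟨i, b, h1, h2⟩ := hx
    refine ⟨-i, b⁻¹, ?_, (dvd_neg (a := j) (b := i)).2 h2⟩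
    have e : f * x⁻¹ * f⁻¹ = (f * x * f⁻¹)⁻¹ := by group
    rw [e]
    exact h1.inv

theorem exists_data {f : P} (hf : f ∈ NN) : ∃ d, Data f d := by
  obtain ⟨j, a, hja⟩ := exists_type (NN_conj hf (Lf_mem 1 1))
  have h0 : ∀ y, ∃ b, HasType (f * Lf 0 y * f⁻¹) 0 b := by
    intro y
    obtain ⟨i, b, hb⟩ := exists_type (NN_conj hf (Lf_mem 0 y))
    have h1 := hb.pow 6
    have h2 : (f * Lf 0 y * f⁻¹) ^ 6 = 1 := by
      rw [conj_pow, Lf_pow]
      have h3 : y ^ 6 = 1 := by rw [← card_F]; exact pow_card_eq_one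
      rw [h3, mul_zero, Lf_zero, mul_one, mul_inv_cancel]
    rw [h2] at h1
    have h3 := (h1.unique (hasType_FS FS.one_mem)).1
    have h4 : i = 0 := by push_cast at h3; omega
    rw [h4] at hb
    exact ⟨b, hb⟩
  choose α hα using h0
  have hj : j ∣ 1 := by
    have h1 : f⁻¹ * Lf 1 1 * f ∈ G0 := by
      have := NN_conj (NN.inv_mem hf) (Lf_mem 1 1)
      rwa [inv_inv] at this
    obtain ⟨i, b, h2, h3⟩ := type_dvd hf hja (fun y => ⟨_, hα y⟩) h1
    have e : f * (f⁻¹ * Lf 1 1 * f) * f⁻¹ = Lf 1 1 := by group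
    rw [e] at h2
    rwa [(h2.unique (hasType_Lf 1 1)).1] at h3
  rcases Int.isUnit_iff.1 (isUnit_of_dvd_one hj) with h | h
  · exact ⟨(true, a, α), by rw [h] at hja; exact hja, hα⟩
  · exact ⟨(false, a, α), by rw [h] at hja; exact hja, hα⟩

theorem same_type {f f' L : P} (hf : f ∈ NN) (hf' : f' ∈ NN) (hL : L ∈ G0) {j : ℤ} {y : F}
    (h : HasType (f * L * f⁻¹) j y) (h' : HasType (f' * L * f'⁻¹) j y) :
    L⁻¹ * ((f⁻¹ * f') * L * (f⁻¹ * f')⁻¹) ∈ FS := by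
  have h1 : (f * L * f⁻¹)⁻¹ * (f' * L * f'⁻¹) ∈ FS := by
    have := h.inv.mul h'
    rw [neg_add_cancel, inv_mul_cancel] at this
    exact FS_of_hasType this
  have h2 : (f * L * f⁻¹)⁻¹ * (f' * L * f'⁻¹) ∈ G0 :=
    G0.mul_mem (G0.inv_mem (NN_conj hf hL)) (NN_conj hf' hL)
  have h3 := FS_conj_NN (NN.inv_mem hf) h2 h1
  have e : f⁻¹ * ((f * L * f⁻¹)⁻¹ * (f' * L * f'⁻¹)) * f⁻¹⁻¹ =
    L⁻¹ * ((f⁻¹ * f') * L * (f⁻¹ * f')⁻¹) := by group
  rwa [e] at h3

theorem same_data {f f' : P} (hf : f ∈ NN) (hf' : f' ∈ NN) {d : Bool × F × (F → F)}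
    (h : Data f d) (h' : Data f' d) : ∃ b : F, (Rf b)⁻¹ * (f⁻¹ * f') ∈ DD :=
  trivial_data (NN.mul_mem (NN.inv_mem hf) hf') (same_type hf hf' (Lf_mem _ _) h.1 h'.1)
    fun y => same_type hf hf' (Lf_mem _ _) (h.2 y) (h'.2 y)

/-- the elements of the normalizer which are of some type -/
def MM : Subgroup NN := DD.subgroupOf NN

theorem mem_MM {f : NN} : f ∈ MM ↔ (f : P) ∈ DD := Iff.rfl

theorem finite_MM : MM.FiniteIndex := by
  classical
  let rep : Bool × F × (F → F) → NN := fun d =>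
    if h : ∃ f : NN, Data f d then h.choose else 1
  have hrep : ∀ d, (∃ f : NN, Data f d) → Data (rep d) d := by
    intro d h
    simp only [rep]
    rw [dif_pos h]
    exact h.choose_spec
  have hs : Function.Surjective (fun q : (Bool × F × (F → F)) × F =>
      (QuotientGroup.mk (rep q.1 * ⟨Rf q.2, Rf_mem_NN _⟩) : NN ⧸ MM)) := by
    intro q
    induction q using QuotientGroup.induction_on with
    | H f =>
      obtain ⟨d, hd⟩ := exists_data f.2
      obtain ⟨b, hb⟩ := same_data (rep d).2 f.2 (hrep d ⟨f, hd⟩) hd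
      refine ⟨(d, b), ?_⟩
      rw [QuotientGroup.eq, mem_MM]
      change (((rep d : NN) : P) * Rf b)⁻¹ * (f : P) ∈ DD
      rw [mul_inv_rev, mul_assoc]
      exact hb
  have := Finite.of_surjective _ hs
  exact Subgroup.finiteIndex_of_finite_quotient

/-- permutations of the infinite cylinder coming from `G0` -/
def HE : Subgroup (Perm Y) where
  carrier := {γ | ∃ t ∈ G0, ∃ S, Fam t γ S}
  mul_mem' := by
    rintro γ γ' ⟨t, ht, S, hf⟩ ⟨t', ht', S', hf'⟩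
    exact ⟨_, G0.mul_mem ht ht', _, hf.mul hf'⟩
  one_mem' := ⟨1, G0.one_mem, ∅, Fam.one⟩
  inv_mem' := by
    rintro γ ⟨t, ht, S, hf⟩
    exact ⟨_, G0.inv_mem ht, _, hf.inv⟩

theorem c3_HE {u v w : Y} (h1 : u ≠ v) (h2 : u ≠ w) (h3 : v ≠ w) : c3 u v w ∈ HE := by
  refine glueY (α := Y) id HE (fun j h => sg_ne (congrArg Prod.snd h)) ?_ u v w h1 h2 h3
  intro j u v w hu hv hw h1 h2 h3
  exact ⟨_, tr_mem hu hv hw h1 h2 h3, _, fam_tr h1 h2 h3⟩

theorem ofSubtype_c3 (S : Finset Y) (a b c : {x // x ∈ S}) :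
    ofSubtype (c3 a b c) = c3 (a : Y) b c := by
  rw [c3, map_mul, ofSubtype_swap_eq, ofSubtype_swap_eq, c3]

theorem alt_HE (S : Finset Y) (σ : Perm {x // x ∈ S}) (hσ : sign σ = 1) : ofSubtype σ ∈ HE := by
  have h1 : alternatingGroup {x // x ∈ S} ≤ HE.comap ofSubtype := by
    apply alt_le_of_c3
    intro a b c h1 h2 h3
    rw [Subgroup.mem_comap, ofSubtype_c3]
    exact c3_HE (fun h => h1 (Subtype.ext h)) (fun h => h2 (Subtype.ext h))
      (fun h => h3 (Subtype.ext h))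
  exact h1 hσ

theorem HE_or (γ : Perm Y) (S : Finset Y) (h : ∀ x, x ∉ S → γ x = x) {u v : Y} (huv : u ≠ v) :
    γ ∈ HE ∨ swap u v * γ ∈ HE := by
  obtain ⟨S', hS'⟩ : ∃ S', S' = insert u (insert v S) := ⟨_, rfl⟩
  have hu : u ∈ S' := by rw [hS']; simp
  have hv : v ∈ S' := by rw [hS']; simp
  have h' : ∀ x, x ∉ S' → γ x = x := by
    intro x hx
    apply h
    intro hxS
    apply hx
    rw [hS']
    simp [hxS]
  have hiff : ∀ x, γ x ∈ S' ↔ x ∈ S' := by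
    intro x
    constructor
    · intro hx
      by_contra hc
      rw [h' x hc] at hx
      exact hc hx
    · exact fix_mem h'
  let σ : Perm {x // x ∈ S'} := γ.subtypePerm hiff
  have hσ : ofSubtype σ = γ := by
    apply ofSubtype_subtypePerm
    intro x hx
    by_contra hc
    exact hx (h' x hc)
  rcases Int.units_eq_one_or (sign σ) with hs | hs
  · left
    rw [← hσ]
    exact alt_HE S' σ hs
  · right
    have h1 := alt_HE S' (swap ⟨u, hu⟩ ⟨v, hv⟩ * σ) (by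
      rw [Perm.sign_mul, hs, sign_swap (fun h => huv (congrArg Subtype.val h))]
      rfl)
    rwa [map_mul, ofSubtype_swap_eq, hσ] at h1

theorem Fam_one {h : P} {S : Finset Y} (hf : Fam h 1 S) : ∃ k0, ∀ k ≥ k0, h k = 1 := by
  obtain ⟨_, k0, h2⟩ := hf
  refine ⟨k0, fun k hk => ?_⟩
  ext1 y
  rw [Perm.one_apply]
  by_cases hy : ∃ x ∈ S, pr k x = y
  · obtain ⟨x, hx, rfl⟩ := hy
    exact (h2 k hk).1 x hx
  · push Not at hy
    exact (h2 k hk).2 y hy

/-- swaps in all coordinates -/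
def sw (u v : Y) : P := fun k => swap (pr k u) (pr k v)

theorem fam_sw {u v : Y} (h1 : u ≠ v) : Fam (sw u v) (swap u v) {u, v} := by
  obtain ⟨k0, hk0⟩ := pr_inj {u, v}
  refine ⟨fun x hx => ?_, k0, fun k hk => ?_⟩
  · simp only [Finset.mem_insert, Finset.mem_singleton, not_or] at hx
    exact swap_apply_of_ne_of_ne hx.1 hx.2
  refine ⟨fun x hx => ?_, fun y hy => ?_⟩
  · simp only [Finset.mem_insert, Finset.mem_singleton] at hx
    rcases hx with rfl | rfl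
    · rw [sw, swap_apply_left, swap_apply_left]
    · rw [sw, swap_apply_right, swap_apply_right]
  · exact swap_apply_of_ne_of_ne (hy u (by simp)).symm (hy v (by simp)).symm

/-- base points -/
abbrev u0 : Y := (0, 1)

/-- base points -/
abbrev v0 : Y := (0, sg)

theorem uv0 : u0 ≠ v0 := fun h => sg_ne (congrArg Prod.snd h)

theorem pr_uv0 (k : ℕ) : pr k u0 ≠ pr k v0 := pr_win (j := 0) (Or.inl rfl) (Or.inl rfl) uv0 k

theorem FS_dichotomy {h : P} (hh : h ∈ FS) : (∃ t ∈ G0, ∃ k0, ∀ k ≥ k0, h k = t k) ∨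
    (∃ k0, ∀ k ≥ k0, sign (h k) = -1) := by
  obtain ⟨γ, S, hf⟩ := hh
  rcases HE_or γ S hf.1 uv0 with ⟨t, ht, S', hf'⟩ | ⟨t, ht, S', hf'⟩
  · left
    have h1 := hf.mul hf'.inv
    rw [mul_inv_cancel] at h1
    obtain ⟨k0, h2⟩ := Fam_one h1
    refine ⟨t, ht, k0, fun k hk => ?_⟩
    have h3 := h2 k hk
    rwa [Pi.mul_apply, Pi.inv_apply, mul_inv_eq_one] at h3
  · right
    have h1 := ((fam_sw uv0).mul hf).mul hf'.inv
    rw [mul_inv_cancel] at h1
    obtain ⟨k0, h2⟩ := Fam_one h1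
    refine ⟨k0, fun k hk => ?_⟩
    have h3 := h2 k hk
    rw [Pi.mul_apply, Pi.mul_apply, Pi.inv_apply, mul_inv_eq_one] at h3
    have h4 := congrArg sign h3
    rw [Perm.sign_mul, sign_G0 ht, sw, sign_swap (pr_uv0 k)] at h4
    rcases Int.units_eq_one_or (sign (h k)) with hs | hs
    · rw [hs] at h4
      exact absurd h4 (by decide)
    · exact hs

theorem mem_G0_of_DD {f : P} (hf : f ∈ DD) (hs : ∀ k, sign (f k) = 1) : f ∈ G0 := by
  obtain ⟨j, y, h⟩ := hf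
  have h1 : ∀ k, sign (((Lf j y)⁻¹ * f) k) = 1 := by
    intro k
    rw [Pi.mul_apply, Perm.sign_mul, hs, mul_one, Pi.inv_apply, Perm.sign_inv, sign_Lf]
  have h2 : (Lf j y)⁻¹ * f ∈ G0 := by
    rcases FS_dichotomy h with ⟨t, ht, k0, h3⟩ | ⟨k0, h3⟩
    · have h4 : ((Lf j y)⁻¹ * f) * t⁻¹ ∈ G0 := by
        refine fill_G0 k0 _ (fun k hk => ?_) fun k => ?_
        · rw [Pi.mul_apply, h3 k hk, Pi.inv_apply, mul_inv_cancel]
        · rw [Pi.mul_apply, Perm.sign_mul, h1, one_mul, Pi.inv_apply, Perm.sign_inv, sign_G0 ht]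
      have h5 := G0.mul_mem h4 ht
      rwa [inv_mul_cancel_right] at h5
    · have h4 := h3 k0 le_rfl
      rw [h1] at h4
      exact absurd h4 (by decide)
  have h3 := G0.mul_mem (Lf_mem j y) h2
  rwa [mul_inv_cancel_left] at h3

end Pool.Agent.R664.IAS
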