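import Pool.Agent.R664.IAS.Defs
import Pool.Agent.R664.IAS.Aut
import Pool.Agent.R664.IAS.Index

set_option autoImplicit false

namespace Pool.Agent.R664.IAS

open Equiv Equiv.Perm
open Pool.Agent.Helper889.Si

theorem gens_finite : gens.Finite := by
  have hW : {x : Y | x.1 = 0 ∨ x.1 = 1}.Finite := by
    have h1 : (({0, 1} : Set ℤ) ×ˢ (Set.univ : Set F)).Finite :=
      Set.Finite.prod (Set.toFinite _) Set.finite_univ
    refine h1.subset ?_
    rintro ⟨i, z⟩ hx
    exact ⟨hx, trivial⟩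
  refine Set.Finite.union (Set.Finite.union (Set.finite_singleton _) (Set.finite_range _)) ?_
  have h2 := ((hW.prod hW).prod hW).image (fun q : (Y × Y) × Y => tr q.1.1 q.1.2 q.2)
  refine h2.subset ?_
  rintro _ ⟨u, v, w, hu, hv, hw, _, _, _, rfl⟩
  exact ⟨((u, v), w), ⟨⟨hu, hv⟩, hw⟩, rfl⟩

theorem fg_G0 : Group.FG G0 := by
  rw [Group.fg_iff_subgroup_fg, Subgroup.fg_iff]
  exact ⟨gens, rfl, gens_finite⟩

theorem rf_G0 : RF G0 := by
  intro g hg
  obtain ⟨k, hk⟩ : ∃ k, (g : P) k ≠ 1 := by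
    by_contra hcon
    push Not at hcon
    exact hg (Subtype.ext (funext hcon))
  exact ⟨Perm (X k), inferInstance, inferInstance,
    (Pi.evalMonoidHom (fun k => Perm (X k)) k).comp G0.subtype, hk⟩

theorem rf_out {G : Type} [Group G] (h : ∀ φ : MulAut G, φ ∉ Inn G →
    ∃ H : Subgroup (MulAut G), H.FiniteIndex ∧ Inn G ≤ H ∧ φ ∉ H) : RF (Out G) := by
  intro q hq
  induction q using QuotientGroup.induction_on with
  | H φ =>
    obtain ⟨H, hH, h1, h2⟩ := h φ fun hc => hq ((QuotientGroup.eq_one_iff φ).2 hc)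
    have h3 : Inn G ≤ H.normalCore := Subgroup.normal_le_normalCore.2 h1
    refine ⟨MulAut G ⧸ H.normalCore, inferInstance, Subgroup.finite_quotient_of_finiteIndex,
      QuotientGroup.map _ _ (MonoidHom.id _) h3, ?_⟩
    intro hc
    have h4 : (QuotientGroup.mk φ : MulAut G ⧸ H.normalCore) = 1 := hc
    rw [QuotientGroup.eq_one_iff] at h4
    exact h2 (H.normalCore_le h4)

/-- the homomorphism from the normalizer to the automorphism group -/
def cjh : NN →* MulAut G0 := G0.normalizerMonoidHom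

theorem cjh_apply (f : NN) : cjh f = cj f := rfl

theorem cjh_surj : Function.Surjective cjh := fun ψ => by
  obtain ⟨f, hf⟩ := aut_spec ψ
  exact ⟨f, hf.symm⟩

theorem cjh_ker (f : NN) : cjh f ∈ Inn G0 ↔ (f : P) ∈ G0 := cj_inner

/-- the sign of a coordinate -/
def sgk (k : ℕ) : NN →* ℤˣ := sign.comp ((Pi.evalMonoidHom (fun k => Perm (X k)) k).comp NN.subtype)

theorem sgk_apply (k : ℕ) (f : NN) : sgk k f = sign ((f : P) k) := rfl

theorem cj_inj {f f' : NN} (h : cjh f = cjh f') : f = f' := by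
  have h1 : ((f : P)⁻¹ * f') = 1 := by
    apply cent_G0
    intro x hx
    have h2 := congrArg Subtype.val (DFunLike.congr_fun h ⟨x, hx⟩)
    change (f : P) * x * (f : P)⁻¹ = f' * x * (f' : P)⁻¹ at h2
    have e : (f : P)⁻¹ * f' * x * ((f : P)⁻¹ * f')⁻¹ = (f : P)⁻¹ * (f' * x * (f' : P)⁻¹) * f := by
      group
    rw [e, ← h2]
    group
  rw [inv_mul_eq_one] at h1
  exact Subtype.ext h1

theorem rf_out_G0 : RF (Out G0) := by
  apply rf_out
  intro ψ hψ
  obtain ⟨f, rfl⟩ := cjh_surj ψ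
  rw [cjh_ker] at hψ
  by_cases hD : (f : P) ∈ DD
  · obtain ⟨k, hk⟩ : ∃ k, sign ((f : P) k) ≠ 1 := by
      by_contra hcon
      push Not at hcon
      exact hψ (mem_G0_of_DD hD hcon)
    have hfi : (sgk k).ker.FiniteIndex := inferInstance
    refine ⟨(sgk k).ker.map cjh, ?_, ?_, ?_⟩
    · constructor
      rw [Subgroup.index_map_of_bijective ⟨fun _ _ => cj_inj, cjh_surj⟩]
      exact hfi.index_ne_zero
    · intro φ hφ
      obtain ⟨g, rfl⟩ := cjh_surj φ
      rw [cjh_ker] at hφ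
      exact ⟨g, sign_G0 hφ k, rfl⟩
    · rintro ⟨g, hg, hgf⟩
      rw [cj_inj hgf] at hg
      exact hk hg
  · refine ⟨MM.map cjh, ?_, ?_, ?_⟩
    · constructor
      rw [Subgroup.index_map_of_bijective ⟨fun _ _ => cj_inj, cjh_surj⟩]
      exact finite_MM.index_ne_zero
    · intro φ hφ
      obtain ⟨g, rfl⟩ := cjh_surj φ
      rw [cjh_ker] at hφ
      exact ⟨g, G0_le_DD hφ, rfl⟩
    · rintro ⟨g, hg, hgf⟩
      rw [cj_inj hgf] at hg
      exact hD hg

/-- finitely supported elements of the product normalize `G0` -/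
theorem fin_norm {d : P} {b : ℕ} (hd : ∀ k, b ≤ k → d k = 1) : d ∈ NN := by
  have key : ∀ d : P, (∀ k, b ≤ k → d k = 1) → ∀ x ∈ G0, d * x * d⁻¹ ∈ G0 := by
    intro d hd x hx
    have h1 : d * x * d⁻¹ * x⁻¹ ∈ G0 := by
      refine fill_G0 b _ (fun k hk => ?_) fun k => ?_
      · rw [Pi.mul_apply, Pi.mul_apply, Pi.mul_apply, Pi.inv_apply, hd k hk, inv_one, one_mul,
          mul_one, Pi.inv_apply, mul_inv_cancel]
      · rw [Pi.mul_apply, Pi.mul_apply, Pi.mul_apply, Pi.inv_apply, Pi.inv_apply, Perm.sign_mul,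
          Perm.sign_mul, Perm.sign_mul, Perm.sign_inv, Perm.sign_inv, sign_G0 hx, mul_one, mul_one,
          Int.units_mul_self]
    have h2 := G0.mul_mem h1 hx
    rwa [inv_mul_cancel_right] at h2
  rw [mem_NN]
  refine fun x => ⟨key d hd x, fun hx => ?_⟩
  have := key d⁻¹ (fun k hk => by rw [Pi.inv_apply, hd k hk, inv_one]) _ hx
  have e : d⁻¹ * (d * x * d⁻¹) * d⁻¹⁻¹ = x := by group
  rwa [e] at this

/-- odd elements of the coordinates -/
def dd (k : ℕ) : P := Pi.mulSingle k (swap (pr k u0) (pr k v0))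

theorem dd_mem (k : ℕ) : dd k ∈ NN :=
  fin_norm (b := k + 1) fun i hi => Pi.mulSingle_eq_of_ne (by omega) _

theorem infinite_out : Infinite (Out G0) := by
  refine Infinite.of_injective (fun k : ℕ => (QuotientGroup.mk (cjh ⟨dd k, dd_mem k⟩) : Out G0)) ?_
  intro i j hij
  by_contra hne
  simp only at hij
  rw [QuotientGroup.eq, ← map_inv, ← map_mul, cjh_ker] at hij
  have h1 := sign_G0 hij i
  change sign ((dd i i)⁻¹ * dd j i) = 1 at h1
  rw [dd, dd, Pi.mulSingle_eq_same, Pi.mulSingle_eq_of_ne hne, mul_one, Perm.sign_inv,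
    sign_swap (pr_uv0 i)] at h1
  exact absurd h1 (by decide)

theorem not_ias : ¬ InnerAutSeparable G0 := by
  intro h
  obtain ⟨K, hK, hfi, hK2⟩ := h (cjh ⟨Rf sg, Rf_mem_NN sg⟩) (by
    rw [cjh_ker]
    exact fun hc => Rf_notMem (Ne.symm sg_ne) (G0_le_DD hc))
  apply hK2
  have : Finite (G0 ⧸ K) := Subgroup.finite_quotient_of_finiteIndex
  obtain ⟨g, hg⟩ := rf_key (QuotientGroup.mk' K) sg
  refine ⟨QuotientGroup.mk g, ?_⟩
  apply MulEquiv.ext
  intro q
  induction q using QuotientGroup.induction_on with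
  | H x =>
    rw [induced_mk]
    exact (hg x).symm

theorem main : ∃ (G : Type) (_ : Group G), Group.FG G ∧ RF G ∧ RF (Out G) ∧ Infinite (Out G) ∧
    ¬ InnerAutSeparable G :=
  ⟨G0, inferInstance, fg_G0, rf_G0, rf_out_G0, infinite_out, not_ias⟩

end Pool.Agent.R664.IAS
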