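import Pool.Agent.R664.IAS.Sep

set_option autoImplicit false

namespace Pool.Agent.R664.IAS

open Equiv Equiv.Perm
open Pool.Agent.Helper889.Si

/-- bounded supports -/
def BS (x : P) : Prop := ∃ C, ∀ k, (x k).support.card ≤ C

theorem BS_conj {x : P} (f : P) (h : BS x) : BS (f * x * f⁻¹) := by
  obtain ⟨C, hC⟩ := h
  refine ⟨C, fun k => ?_⟩
  rw [Pi.mul_apply, Pi.mul_apply, Pi.inv_apply, card_support_conj]
  exact hC k

theorem BS_of_FS {x : P} (h : x ∈ FS) : BS x := by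
  obtain ⟨γ, S, h1, k0, h2⟩ := h
  refine ⟨S.card + (2 * k0 + 4) * 6, fun k => ?_⟩
  rcases Nat.lt_or_ge k k0 with hk | hk
  · have h3 : (x k).support.card ≤ Fintype.card (X k) := Finset.card_le_univ _
    rw [card_X] at h3
    omega
  · have h3 : (x k).support ⊆ S.image (pr k) := by
      intro y hy
      rw [mem_support] at hy
      by_contra hc
      apply hy
      refine (h2 k hk).2 y fun s hs h => hc ?_
      rw [Finset.mem_image]
      exact ⟨s, hs, h⟩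
    have h4 := Finset.card_le_card h3
    have h5 : (S.image (pr k)).card ≤ S.card := Finset.card_image_le
    omega

theorem FS_of_BS {x : P} (hx : x ∈ DD) (h : BS x) : x ∈ FS := by
  obtain ⟨j, y, hf⟩ := hx
  obtain ⟨C, hC⟩ := h
  by_cases hjy : j = 0 ∧ y = 1
  · obtain ⟨rfl, rfl⟩ := hjy
    exact FS_of_hasType hf
  exfalso
  obtain ⟨γ, S, h1, k0, h2⟩ := hf
  obtain ⟨w, hw⟩ := not_pr S
  obtain ⟨k, hk⟩ : ∃ k, k = k0 + w + C + j.natAbs := ⟨_, rfl⟩
  have key : ∀ i : ℕ, i < C + 1 → pr k ((w : ℤ) + i, 1) ∈ (x k).support := by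
    intro i hi
    rw [mem_support]
    intro h3
    have h4 := (h2 k (by omega)).2 (pr k ((w : ℤ) + i, 1))
      (fun s hs => hw k _ (by omega) (by unfold nn; push_cast; omega) 1 s hs)
    rw [Pi.mul_apply, Pi.inv_apply, Perm.mul_apply, Perm.inv_eq_iff_eq, h3, pr_LY, pr_eq_iff,
      LY_apply] at h4
    obtain ⟨h5, h6⟩ := h4
    simp only [mul_one] at h5 h6
    apply hjy
    refine ⟨?_, h6.symm⟩
    have h7 : (w : ℤ) + i - (w + i + j) = 0 := by
      apply Int.eq_zero_of_abs_lt_dvd h5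
      rw [abs_lt]
      unfold nn
      push_cast
      constructor <;> omega
    omega
  have h3 : (Finset.range (C + 1)).card ≤ (x k).support.card := by
    refine Finset.card_le_card_of_injOn (fun i : ℕ => pr k ((w : ℤ) + i, 1)) ?_ ?_
    · intro i hi
      exact key i (Finset.mem_range.1 hi)
    · intro i hi i' hi' hii
      simp only [Finset.coe_range, Set.mem_Iio] at hi hi'
      have h4 := ((pr_eq_iff _ _ _).1 hii).1
      simp only at h4
      have h7 : (w : ℤ) + i - (w + i') = 0 := by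
        apply Int.eq_zero_of_abs_lt_dvd h4
        rw [abs_lt]
        unfold nn
        push_cast
        constructor <;> omega
      omega
  rw [Finset.card_range] at h3
  have := hC k
  omega

theorem FS_conj_NN {f x : P} (hf : f ∈ NN) (hx : x ∈ G0) (hx' : x ∈ FS) : f * x * f⁻¹ ∈ FS :=
  FS_of_BS (G0_le_DD (NN_conj hf hx)) (BS_conj f (BS_of_FS hx'))

/-- `f` sends `x` to `x'` in all large coordinates -/
def Lim (f : P) (x x' : Y) : Prop := ∃ k1, ∀ k ≥ k1, f k (pr k x) = pr k x'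

theorem four (x : Y) : ∃ a b c d : Y, (a.1 = x.1 ∧ b.1 = x.1 ∧ c.1 = x.1 ∧ d.1 = x.1) ∧
    (x ≠ a ∧ x ≠ b ∧ a ≠ b) ∧ (x ≠ c ∧ x ≠ d ∧ c ≠ d) ∧ a ≠ c ∧ a ≠ d ∧ b ≠ c ∧ b ≠ d := by
  obtain ⟨a, ha⟩ := exists_ne_of_card {x.2}
    (lt_of_le_of_lt (Finset.card_singleton _).le (by rw [card_F]; norm_num))
  obtain ⟨b, hb⟩ := exists_ne_of_card {x.2, a}
    (lt_of_le_of_lt Finset.card_le_two (by rw [card_F]; norm_num))
  obtain ⟨c, hc⟩ := exists_ne_of_card {x.2, a, b}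
    (lt_of_le_of_lt Finset.card_le_three (by rw [card_F]; norm_num))
  obtain ⟨d, hd⟩ := exists_ne_of_card {x.2, a, b, c}
    (lt_of_le_of_lt Finset.card_le_four (by rw [card_F]; norm_num))
  simp only [Finset.mem_insert, Finset.mem_singleton, not_or] at ha hb hc hd
  refine ⟨(x.1, a), (x.1, b), (x.1, c), (x.1, d), ⟨rfl, rfl, rfl, rfl⟩, ⟨?_, ?_, ?_⟩,
    ⟨?_, ?_, ?_⟩, ?_, ?_, ?_, ?_⟩
  · exact fun h => ha (congrArg Prod.snd h).symm
  · exact fun h => hb.1 (congrArg Prod.snd h).symm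
  · exact fun h => hb.2 (congrArg Prod.snd h).symm
  · exact fun h => hc.1 (congrArg Prod.snd h).symm
  · exact fun h => hd.1 (congrArg Prod.snd h).symm
  · exact fun h => hd.2.2.2 (congrArg Prod.snd h).symm
  · exact fun h => hc.2.1 (congrArg Prod.snd h).symm
  · exact fun h => hd.2.1 (congrArg Prod.snd h).symm
  · exact fun h => hc.2.2 (congrArg Prod.snd h).symm
  · exact fun h => hd.2.2.1 (congrArg Prod.snd h).symm

theorem exists_lim {f : P} (hf : f ∈ NN) (x : Y) : ∃ x', Lim f x x' := by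
  obtain ⟨a, b, c, d, ⟨ea, eb, ec, ed⟩, ⟨xa, xb, ab⟩, ⟨xc, xd, cd⟩, ac, ad, bc, bd⟩ := four x
  have ht : tr x a b ∈ G0 := tr_mem (j := x.1) (Or.inl rfl) (Or.inl ea) (Or.inl eb) xa xb ab
  have ht' : tr x c d ∈ G0 := tr_mem (j := x.1) (Or.inl rfl) (Or.inl ec) (Or.inl ed) xc xd cd
  obtain ⟨γ, S, h1, k0, h2⟩ := FS_conj_NN hf ht ⟨_, _, fam_tr xa xb ab⟩
  obtain ⟨γ', S', h1', k0', h2'⟩ := FS_conj_NN hf ht' ⟨_, _, fam_tr xc xd cd⟩
  obtain ⟨k2, h3⟩ := pr_inj (S ∪ S')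
  have win : ∀ {u v : Y}, u.1 = x.1 → v.1 = x.1 → u ≠ v → ∀ k, pr k u ≠ pr k v :=
    fun hu hv h k => pr_win (j := x.1) (Or.inl hu) (Or.inl hv) h k
  -- values
  have e1 : ∀ k y, (f * tr x a b * f⁻¹) k (f k y) = f k (tr x a b k y) := by
    intro k y
    rw [Pi.mul_apply, Pi.mul_apply, Pi.inv_apply, Perm.mul_apply, Perm.mul_apply, ias]
  have e1' : ∀ k y, (f * tr x c d * f⁻¹) k (f k y) = f k (tr x c d k y) := by
    intro k y
    rw [Pi.mul_apply, Pi.mul_apply, Pi.inv_apply, Perm.mul_apply, Perm.mul_apply, ias]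
  obtain ⟨k1, hk1⟩ : ∃ k1, k1 = max k0 (max k0' k2) := ⟨_, rfl⟩
  have mem1 : ∃ s ∈ S, pr k1 s = f k1 (pr k1 x) := by
    by_contra hcon
    push Not at hcon
    have h4 := (h2 k1 (by omega)).2 _ hcon
    rw [e1, tr, c3_1 (win rfl ea xa k1) (win rfl eb xb k1)] at h4
    exact win rfl ea xa k1 ((f k1).injective h4).symm
  have mem1' : ∃ s ∈ S', pr k1 s = f k1 (pr k1 x) := by
    by_contra hcon
    push Not at hcon
    have h4 := (h2' k1 (by omega)).2 _ hcon
    rw [e1', tr, c3_1 (win rfl ec xc k1) (win rfl ed xd k1)] at h4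
    exact win rfl ec xc k1 ((f k1).injective h4).symm
  obtain ⟨s, hs, hsx⟩ := mem1
  obtain ⟨s', hs', hsx'⟩ := mem1'
  have hss : s = s' := h3 k1 (by omega) s (Finset.mem_union_left _ hs) s'
    (Finset.mem_union_right _ hs') (hsx.trans hsx'.symm)
  subst hss
  have hγ : γ s ≠ s := by
    intro h
    have h4 := (h2 k1 (by omega)).1 s hs
    rw [h, hsx, e1, tr, c3_1 (win rfl ea xa k1) (win rfl eb xb k1)] at h4
    exact win rfl ea xa k1 ((f k1).injective h4).symm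
  have hγ' : γ' s ≠ s := by
    intro h
    have h4 := (h2' k1 (by omega)).1 s hs'
    rw [h, hsx, e1', tr, c3_1 (win rfl ec xc k1) (win rfl ed xd k1)] at h4
    exact win rfl ec xc k1 ((f k1).injective h4).symm
  refine ⟨s, k1, fun k hk => ?_⟩
  obtain ⟨y, hy⟩ := (f k).surjective (pr k s)
  have m1 : tr x a b k y ≠ y := by
    intro h
    have h4 := (h2 k (by omega)).1 s hs
    rw [← hy, e1, h, hy] at h4
    exact hγ (h3 k (by omega) _ (Finset.mem_union_left _ (fix_mem h1 hs)) s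
      (Finset.mem_union_left _ hs) h4.symm)
  have m1' : tr x c d k y ≠ y := by
    intro h
    have h4 := (h2' k (by omega)).1 s hs'
    rw [← hy, e1', h, hy] at h4
    exact hγ' (h3 k (by omega) _ (Finset.mem_union_right _ (fix_mem h1' hs')) s
      (Finset.mem_union_left _ hs) h4.symm)
  have h5 : y = pr k x := by
    by_contra hyx
    have h6 : y = pr k a ∨ y = pr k b := by
      by_contra hc
      push Not at hc
      exact m1 (c3_fix hyx hc.1 hc.2)
    have h7 : y = pr k c ∨ y = pr k d := by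
      by_contra hc
      push Not at hc
      exact m1' (c3_fix hyx hc.1 hc.2)
    rcases h6 with h6 | h6 <;> rcases h7 with h7 | h7
    · exact win ea ec ac k (h6.symm.trans h7)
    · exact win ea ed ad k (h6.symm.trans h7)
    · exact win eb ec bc k (h6.symm.trans h7)
    · exact win eb ed bd k (h6.symm.trans h7)
  rw [← h5, hy]

theorem eq_of_pr {x y : Y} {k0 : ℕ} (h : ∀ k ≥ k0, pr k x = pr k y) : x = y := by
  obtain ⟨k1, h1⟩ := pr_inj {x, y}
  exact h1 (max k0 k1) (le_max_right _ _) x (by simp) y (by simp) (h _ (le_max_left _ _))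

/-- the limit permutation -/
theorem exists_limPerm {f : P} (hf : f ∈ NN) : ∃ γ : Perm Y, ∀ x, Lim f x (γ x) := by
  choose π hπ using fun x => exists_lim hf x
  choose ρ hρ using fun x => exists_lim (NN.inv_mem hf) x
  refine ⟨⟨π, ρ, fun x => ?_, fun x => ?_⟩, hπ⟩
  · obtain ⟨k1, h1⟩ := hπ x
    obtain ⟨k2, h2⟩ := hρ (π x)
    apply eq_of_pr (k0 := max k1 k2)
    intro k hk
    rw [← h2 k (le_trans (le_max_right _ _) hk), Pi.inv_apply,
      ← h1 k (le_trans (le_max_left _ _) hk), ias]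
  · obtain ⟨k1, h1⟩ := hρ x
    obtain ⟨k2, h2⟩ := hπ (ρ x)
    apply eq_of_pr (k0 := max k1 k2)
    intro k hk
    rw [← h2 k (le_trans (le_max_right _ _) hk), ← h1 k (le_trans (le_max_left _ _) hk),
      Pi.inv_apply, ais]

theorem lim_unif {f : P} {π : Y → Y} (h : ∀ x, Lim f x (π x)) (S : Finset Y) :
    ∃ k1, ∀ k ≥ k1, ∀ x ∈ S, f k (pr k x) = pr k (π x) := by
  choose K hK using h
  refine ⟨S.sup K, fun k hk x hx => hK x k (le_trans (Finset.le_sup hx) hk)⟩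

theorem comm_far {f : P} (hf : f ∈ NN) {g : P} (hg : g⁻¹ * (f * g * f⁻¹) ∈ FS) :
    ∃ (S : Finset Y) (k1 : ℕ), ∀ k ≥ k1, ∀ x : X k, (∀ s ∈ S, pr k s ≠ x) →
      f k (g k x) = g k (f k x) := by
  obtain ⟨γ, S, h1, k0, h2⟩ := hg
  obtain ⟨ρ, hρ⟩ := exists_limPerm (NN.inv_mem hf)
  obtain ⟨k1, h3⟩ := lim_unif hρ S
  refine ⟨S.image ρ, max k0 k1, fun k hk x hx => ?_⟩
  have h4 := (h2 k (le_trans (le_max_left _ _) hk)).2 (f k x) ?_
  · rw [Pi.mul_apply, Pi.inv_apply, Pi.mul_apply, Pi.mul_apply, Pi.inv_apply, Perm.mul_apply,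
      Perm.mul_apply, Perm.mul_apply, ias, Perm.inv_eq_iff_eq] at h4
    exact h4
  · intro s hs hsx
    apply hx (ρ s) (Finset.mem_image_of_mem _ hs)
    rw [← h3 k (le_trans (le_max_right _ _) hk) s hs, Pi.inv_apply, hsx, ias]

theorem pr_rep (k : ℕ) (y : X k) : ∃ (i : ℤ) (z : F), 0 ≤ i ∧ i < nn k ∧ pr k (i, z) = y := by
  refine ⟨(y.1.val : ℤ), y.2, by positivity, ?_, ?_⟩
  · exact_mod_cast ZMod.val_lt y.1
  · rw [pr]
    refine Prod.ext ?_ rfl
    simp

theorem pr_shift (k : ℕ) (i : ℤ) (z : F) : pr k (i + nn k, z) = pr k (i, z) := by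
  rw [pr_eq_iff]
  simp

/-- an element of the normalizer which is trivial far away from the origin is finitary -/
theorem FS_of_far {r : P} (hr : r ∈ NN) (w K : ℕ) (h : ∀ k ≥ K, ∀ (i : ℤ) (z : F), (w : ℤ) ≤ i →
    i + w ≤ nn k → r k (pr k (i, z)) = pr k (i, z)) : r ∈ FS := by
  obtain ⟨γ, hγ⟩ := exists_limPerm hr
  obtain ⟨S, hS⟩ : ∃ S : Finset Y, S = Finset.Icc (-(w : ℤ)) w ×ˢ Finset.univ := ⟨_, rfl⟩
  have memS : ∀ (i : ℤ) (z : F), (i, z) ∈ S ↔ -(w : ℤ) ≤ i ∧ i ≤ w := by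
    intro i z
    rw [hS, Finset.mem_product, Finset.mem_Icc]
    simp
  obtain ⟨k1, hk1⟩ := lim_unif hγ S
  refine ⟨γ, S, ?_, max k1 K, fun k hk => ⟨hk1 k (le_trans (le_max_left _ _) hk), ?_⟩⟩
  · rintro ⟨i, z⟩ hx
    rw [memS, not_and_or] at hx
    obtain ⟨k2, h2⟩ := hγ (i, z)
    apply eq_of_pr (k0 := max K k2 + i.natAbs + w)
    intro k hk
    rw [← h2 k (by omega)]
    rcases hx with hx | hx
    · rw [← pr_shift]
      exact h k (by omega) _ _ (by unfold nn; push_cast; omega) (by omega)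
    · exact h k (by omega) _ _ (by omega) (by unfold nn; push_cast; omega)
  · intro y hy
    obtain ⟨i, z, h1, h2, rfl⟩ := pr_rep k y
    refine h k (le_trans (le_max_right _ _) hk) i z ?_ ?_
    · by_contra hc
      exact hy (i, z) ((memS _ _).2 (by omega)) rfl
    · by_contra hc
      refine hy (i - nn k, z) ((memS _ _).2 (by omega)) ?_
      rw [← pr_shift, sub_add_cancel]

/-- elements of the normalizer with trivial data -/
theorem trivial_data {f : P} (hf : f ∈ NN) (h1 : HasType (f * Lf 1 1 * f⁻¹) 1 1)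
    (h2 : ∀ y, HasType (f * Lf 0 y * f⁻¹) 0 y) : ∃ b : F, (Rf b)⁻¹ * f ∈ DD := by
  obtain ⟨S1, K1, c1⟩ := comm_far hf h1
  choose S2 K2 c2 using fun y => comm_far hf (h2 y)
  obtain ⟨S, hS⟩ : ∃ S : Finset Y, S = S1 ∪ Finset.univ.biUnion S2 := ⟨_, rfl⟩
  obtain ⟨w, hw⟩ := not_pr S
  obtain ⟨p, K3, hp⟩ := exists_lim hf ((w : ℤ), 1)
  obtain ⟨K, hK⟩ : ∃ K, K = max (max K1 (Finset.univ.sup K2)) K3 := ⟨_, rfl⟩
  have a1 : ∀ k ≥ K, ∀ i : ℤ, (w : ℤ) ≤ i → i + w ≤ nn k → ∀ z,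
      f k (Lf 1 1 k (pr k (i, z))) = Lf 1 1 k (f k (pr k (i, z))) := by
    intro k hk i hi1 hi2 z
    refine c1 k (by omega) _ fun s hs => hw k i hi1 hi2 z s ?_
    rw [hS]
    exact Finset.mem_union_left _ hs
  have a2 : ∀ k ≥ K, ∀ i : ℤ, (w : ℤ) ≤ i → i + w ≤ nn k → ∀ y z,
      f k (Lf 0 y k (pr k (i, z))) = Lf 0 y k (f k (pr k (i, z))) := by
    intro k hk i hi1 hi2 y z
    have hy : K2 y ≤ Finset.univ.sup K2 := Finset.le_sup (Finset.mem_univ y)
    refine c2 y k (by omega) _ fun s hs => hw k i hi1 hi2 z s ?_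
    rw [hS]
    exact Finset.mem_union_right _ (Finset.mem_biUnion.2 ⟨y, Finset.mem_univ y, hs⟩)
  have a3 : ∀ k ≥ K, ∀ n : ℕ, (w : ℤ) + n + w ≤ nn k →
      f k (pr k ((w : ℤ) + n, 1)) = pr k (p.1 + n, p.2) := by
    intro k hk n
    induction n with
    | zero =>
      intro _
      simp only [Nat.cast_zero, add_zero]
      exact hp k (by omega)
    | succ n ih =>
      intro hn
      rw [Nat.cast_succ] at hn
      have h3 := ih (by omega)
      have h4 := a1 k hk ((w : ℤ) + n) (by omega) (by omega) 1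
      rw [h3, pr_LY, pr_LY, LY_apply, LY_apply] at h4
      simp only [mul_one, one_mul] at h4
      rw [Nat.cast_succ, ← add_assoc, ← add_assoc]
      exact h4
  have a4 : ∀ k ≥ K, ∀ (i : ℤ) (z : F), (w : ℤ) ≤ i → i + w ≤ nn k →
      f k (pr k (i, z)) = pr k (i + (p.1 - w), z * p.2) := by
    intro k hk i z hi1 hi2
    have h3 := a3 k hk (i - w).toNat (by omega)
    have h5 : ((i - w).toNat : ℤ) = i - w := Int.toNat_of_nonneg (by omega)
    rw [h5] at h3
    have h6 : (w : ℤ) + (i - w) = i := by ring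
    rw [h6] at h3
    have h4 := a2 k hk i hi1 hi2 z 1
    rw [h3, pr_LY, pr_LY, LY_apply, LY_apply] at h4
    simp only [mul_one, add_zero] at h4
    rw [h4]
    congr 1
    exact Prod.ext (by simp only; ring) rfl
  refine ⟨p.2⁻¹, p.1 - w, 1, ?_⟩
  have e : (Lf (p.1 - w) 1)⁻¹ * ((Rf p.2⁻¹)⁻¹ * f) = (Rf p.2⁻¹ * Lf (p.1 - w) 1)⁻¹ * f := by group
  rw [e]
  refine FS_of_far (NN.mul_mem (NN.inv_mem (NN.mul_mem (Rf_mem_NN _) (G0_le_NN (Lf_mem _ _)))) hf)
    w K ?_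
  intro k hk i z hi1 hi2
  rw [Pi.mul_apply, Pi.inv_apply, Perm.mul_apply, a4 k hk i z hi1 hi2, Perm.inv_eq_iff_eq,
    Pi.mul_apply, Perm.mul_apply, pr_LY, pr_RY, LY_apply, RY_apply]
  simp

end Pool.Agent.R664.IAS
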