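import Pool.Agent.R664.IAS.Alt

set_option autoImplicit false

namespace Pool.Agent.R664.IAS

open Equiv Equiv.Perm
open Pool.Agent.Helper889.Si

theorem Lf_pow (j : ℤ) (y : F) (n : ℕ) : Lf j y ^ n = Lf (n * j) (y ^ n) := by
  induction n with
  | zero => simp [Lf_zero]
  | succ n ih =>
    rw [pow_succ, ih, Lf_mul, pow_succ]
    congr 1
    push_cast
    ring

/-- truncation -/
def trunc (N : ℕ) (z : P) : P := fun k => if k < N then z k else 1

theorem trunc_mul (N : ℕ) (z z' : P) : trunc N (z * z') = trunc N z * trunc N z' := by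
  funext k
  rw [Pi.mul_apply]
  unfold trunc
  split_ifs <;> simp

theorem trunc_mem {z : P} (hz : ∀ k, sign (z k) = 1) (N : ℕ) : trunc N z ∈ G0 := by
  refine fill_G0 N _ (fun k hk => if_neg (by omega)) fun k => ?_
  unfold trunc
  split_ifs
  · exact hz k
  · exact Perm.sign_one

/-- the inclusion of the alternating group of a coordinate -/
def incl (k : ℕ) : alternatingGroup (X k) →* G0 :=
  ((MonoidHom.mulSingle (fun k => Perm (X k)) k).comp (alternatingGroup (X k)).subtype).codRestrict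
    G0 fun σ => single_mem k σ.1 σ.2

theorem incl_apply (k : ℕ) (σ : alternatingGroup (X k)) :
    ((incl k σ : G0) : P) = Pi.mulSingle k (σ : Perm (X k)) := rfl

theorem simpleX (k : ℕ) : IsSimpleGroup (alternatingGroup (X k)) := by
  apply alternatingGroup.isSimpleGroup
  rw [Nat.card_eq_fintype_card, card_X]
  omega

theorem kill {Q : Type} [Group Q] [Finite Q] (f : G0 →* Q) (k : ℕ) (hk : Nat.card Q ≤ k)
    (σ : alternatingGroup (X k)) : f (incl k σ) = 1 := by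
  have := simpleX k
  rcases (inferInstance : (f.comp (incl k)).ker.Normal).eq_bot_or_eq_top with h | h
  · exfalso
    rw [MonoidHom.ker_eq_bot_iff] at h
    have h1 : Function.Injective (fun j : Fin (nn k) => f.comp (incl k)
        ⟨Lf (j : ℕ) 1 k, sign_Lf _ _ _⟩) := by
      intro i j hij
      have h2 := h hij
      have h2' : Lf (i : ℕ) 1 k = Lf (j : ℕ) 1 k := congrArg Subtype.val h2
      have h3 : Lf (i : ℕ) 1 k (pr k (0, 1)) = Lf (j : ℕ) 1 k (pr k (0, 1)) := by rw [h2']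
      rw [pr_LY, pr_LY, pr_eq_iff, LY_apply, LY_apply] at h3
      have h4 := h3.1
      simp only [zero_add] at h4
      have h5 : ((i : ℕ) : ℤ) - (j : ℕ) = 0 := by
        apply Int.eq_zero_of_abs_lt_dvd h4
        rw [abs_lt]
        have := i.2
        have := j.2
        constructor <;> omega
      exact Fin.ext (by omega)
    have h2 := Nat.card_le_card_of_injective _ h1
    rw [Nat.card_eq_fintype_card, Fintype.card_fin] at h2
    unfold nn at h2
    omega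
  · have h1 : σ ∈ (f.comp (incl k)).ker := by rw [h]; trivial
    exact h1

theorem trunc_tr {Q : Type} [Group Q] [Finite Q] (f : G0 →* Q) {u v w : Y}
    (hu : u.1 = 0 ∨ u.1 = 0 + 1) (hv : v.1 = 0 ∨ v.1 = 0 + 1)
    (hw : w.1 = 0 ∨ w.1 = 0 + 1) (h1 : u ≠ v) (h2 : u ≠ w) (h3 : v ≠ w)
    (ht : tr u v w ∈ G0) (ht' : trunc (Nat.card Q) (tr u v w) ∈ G0) :
    f ⟨_, ht⟩ = f ⟨_, ht'⟩ := by
  obtain ⟨x, y, hW⟩ := exists_win5 hu hv hw h1 h2 h3
  set N := Nat.card Q with hN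
  have hN0 : 0 < N := Nat.card_pos
  obtain ⟨s, hs⟩ : ∃ s, s = 2 * N * ∏ k ∈ Finset.range N, nn k := ⟨_, rfl⟩
  have hpos : 0 < ∏ k ∈ Finset.range N, nn k := Finset.prod_pos fun k _ => by unfold nn; omega
  have hs2 : 2 ≤ s := by
    rw [hs]
    have : 1 ≤ N * ∏ k ∈ Finset.range N, nn k := Nat.mul_pos hN0 hpos
    rw [mul_assoc]
    omega
  have hsN : N ∣ s := by
    rw [hs, mul_comm 2 N, mul_assoc]
    exact dvd_mul_right _ _
  have hsk : ∀ k < N, nn k ∣ s := by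
    intro k hk
    rw [hs]
    exact Dvd.dvd.mul_left (Finset.dvd_prod_of_mem _ (Finset.mem_range.2 hk)) _
  let L : G0 := ⟨Lf s 1, Lf_mem _ _⟩
  let c : G0 := ⟨Lf 1 1, Lf_mem _ _⟩
  have hL : f L = 1 := by
    have : L = c ^ s := by
      apply Subtype.ext
      change Lf s 1 = Lf 1 1 ^ s
      rw [Lf_pow, one_pow, mul_one]
    rw [this, map_pow]
    obtain ⟨q, hq⟩ := hsN
    rw [hq, pow_mul, hN, pow_card_eq_one', one_pow]
  let a : G0 := ⟨tr u v x, tr_mem0 hW.hu hW.hv hW.hx hW.huv hW.hux hW.hvx⟩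
  let b : G0 := ⟨tr u w y, tr_mem0 hW.hu hW.hw hW.hy hW.huw hW.huy hW.hwy⟩
  let e : G0 := a * (L * b * L⁻¹) * a⁻¹ * (L * b * L⁻¹)⁻¹
  have he : (e : P) = ee s u v w x y := rfl
  have h4 : a * b * a⁻¹ * b⁻¹ = ⟨_, ht⟩ := Subtype.ext (funext hW.comm)
  have h5 : f e = f ⟨_, ht⟩ := by
    rw [← h4]
    simp only [e, map_mul, map_inv, hL, one_mul, inv_one, mul_one]
  rw [← h5]
  let K : Subgroup P := f.ker.map G0.subtype
  have hK : ∀ z : P, z ∈ K ↔ ∃ h : z ∈ G0, f ⟨z, h⟩ = 1 := by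
    intro z
    rw [Subgroup.mem_map]
    constructor
    · rintro ⟨x, hx, rfl⟩
      exact ⟨x.2, hx⟩
    · rintro ⟨h, hz⟩
      exact ⟨⟨z, h⟩, hz, rfl⟩
  have h6 : (e : P)⁻¹ * trunc N (tr u v w) ∈ K := by
    refine fill K N (s + 2) (fun k h1 _ σ hσ => (hK _).2 ⟨single_mem k σ hσ, kill f k h1 ⟨σ, hσ⟩⟩)
      _ ?_ ?_
    · intro k hk
      rw [Pi.mul_apply, Pi.inv_apply, he]
      rcases hk with hk | hk
      · rw [ee_dvd hW (Int.natCast_dvd_natCast.2 (hsk k hk)), trunc, if_pos hk, inv_mul_cancel]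
      · rw [ee_far hW (by exact_mod_cast hs2) (by unfold nn; push_cast; omega), inv_one, one_mul,
          trunc, if_neg]
        have : N ≤ s := Nat.le_of_dvd (by omega) hsN
        omega
    · intro k
      rw [Pi.mul_apply, Perm.sign_mul, sign_G0 ht', Pi.inv_apply, Perm.sign_inv, sign_G0 e.2,
        one_mul]
  obtain ⟨h7, h8⟩ := (hK _).1 h6
  have h9 : (⟨_, h7⟩ : G0) = e⁻¹ * ⟨_, ht'⟩ := rfl
  rw [h9, map_mul, map_inv, inv_mul_eq_one] at h8
  exact h8

/-- the normalizer of `G0` -/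
def NN : Subgroup P := Subgroup.normalizer (G0 : Set P)

theorem mem_NN {f : P} : f ∈ NN ↔ ∀ x, x ∈ G0 ↔ f * x * f⁻¹ ∈ G0 := Subgroup.mem_normalizer_iff

theorem Rf_conj_tr (h : F) (u v w : Y) :
    Rf h * tr u v w * (Rf h)⁻¹ = tr (RY h u) (RY h v) (RY h w) := conj_tr (glob_Rf h) u v w

theorem Rf_conj_Lf (h : F) (j : ℤ) (y : F) : Rf h * Lf j y * (Rf h)⁻¹ = Lf j y := by
  rw [Rf_Lf, mul_inv_cancel_right]

theorem Rf_norm1 (h : F) {x : P} (hx : x ∈ G0) : Rf h * x * (Rf h)⁻¹ ∈ G0 := by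
  induction hx using Subgroup.closure_induction with
  | mem x hx =>
    rcases hx with (rfl | ⟨y, rfl⟩) | ⟨u, v, w, hu, hv, hw, h1, h2, h3, rfl⟩
    · rw [Rf_conj_Lf]; exact Lf_mem _ _
    · rw [Rf_conj_Lf]; exact Lf_mem _ _
    · rw [Rf_conj_tr]
      exact tr_mem0 (by simpa [RY_apply] using hu) (by simpa [RY_apply] using hv)
        (by simpa [RY_apply] using hw) (fun h' => h1 ((RY h).injective h'))
        (fun h' => h2 ((RY h).injective h')) (fun h' => h3 ((RY h).injective h'))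
  | one => rw [mul_one, mul_inv_cancel]; exact G0.one_mem
  | mul x y _ _ hx hy =>
    have e : Rf h * (x * y) * (Rf h)⁻¹ = (Rf h * x * (Rf h)⁻¹) * (Rf h * y * (Rf h)⁻¹) := by group
    rw [e]; exact G0.mul_mem hx hy
  | inv x _ hx =>
    have e : Rf h * x⁻¹ * (Rf h)⁻¹ = (Rf h * x * (Rf h)⁻¹)⁻¹ := by group
    rw [e]; exact G0.inv_mem hx

theorem Rf_mem_NN (h : F) : Rf h ∈ NN := by
  rw [mem_NN]
  refine fun x => ⟨Rf_norm1 h, fun hx => ?_⟩
  have := Rf_norm1 h⁻¹ hx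
  rw [← Rf_inv] at this
  have e : (Rf h)⁻¹ * (Rf h * x * (Rf h)⁻¹) * ((Rf h)⁻¹)⁻¹ = x := by group
  rwa [e] at this

theorem NN_conj {f : P} (hf : f ∈ NN) {x : P} (hx : x ∈ G0) : f * x * f⁻¹ ∈ G0 :=
  (mem_NN.1 hf x).1 hx

theorem G0_le_NN : G0 ≤ NN := Subgroup.le_normalizer

/-- conjugation by an element of the normalizer -/
def cj (f : NN) : MulAut G0 := G0.normalizerMonoidHom f

theorem cj_apply (f : NN) (x : G0) : ((cj f x : G0) : P) = f * x * (f : P)⁻¹ := rfl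

/-- conjugation by `Rf h` coincides with an inner automorphism modulo any finite quotient -/
theorem rf_key {Q : Type} [Group Q] [Finite Q] (f : G0 →* Q) (h : F) :
    ∃ g : G0, ∀ x : G0, f (cj ⟨Rf h, Rf_mem_NN h⟩ x) = f (g * x * g⁻¹) := by
  let g : G0 := ⟨trunc (Nat.card Q) (Rf h), trunc_mem (sign_Rf h) _⟩
  refine ⟨g, fun x => ?_⟩
  have key : f.comp (cj ⟨Rf h, Rf_mem_NN h⟩).toMonoidHom = f.comp (MulAut.conj g).toMonoidHom := by
    have hcl : Subgroup.closure (G0.subtype ⁻¹' gens) = ⊤ := Subgroup.closure_closure_coe_preimage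
    apply MonoidHom.eq_of_eqOn_dense hcl
    rintro ⟨x, hx'⟩ hx
    change f (cj ⟨Rf h, Rf_mem_NN h⟩ ⟨x, hx'⟩) = f (g * ⟨x, hx'⟩ * g⁻¹)
    have hLf : ∀ j y, x = Lf j y →
        f (cj ⟨Rf h, Rf_mem_NN h⟩ ⟨x, hx'⟩) = f (g * ⟨x, hx'⟩ * g⁻¹) := by
      intro j y hxy
      congr 1
      apply Subtype.ext
      change Rf h * x * (Rf h)⁻¹ = trunc (Nat.card Q) (Rf h) * x * (trunc (Nat.card Q) (Rf h))⁻¹
      rw [hxy, Rf_conj_Lf, eq_mul_inv_iff_mul_eq]
      funext k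
      rw [Pi.mul_apply, Pi.mul_apply]
      unfold trunc
      split_ifs
      · exact (congrFun (Rf_Lf h j y) k).symm
      · rw [mul_one, one_mul]
    rcases hx with (hx | ⟨y, hx⟩) | ⟨u, v, w, hu, hv, hw, h1, h2, h3, hx⟩
    · exact hLf _ _ hx
    · exact hLf _ _ hx.symm
    · change x = tr u v w at hx
      subst hx
      have hu' : (RY h u).1 = 0 ∨ (RY h u).1 = 0 + 1 := by simpa [RY_apply] using hu
      have hv' : (RY h v).1 = 0 ∨ (RY h v).1 = 0 + 1 := by simpa [RY_apply] using hv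
      have hw' : (RY h w).1 = 0 ∨ (RY h w).1 = 0 + 1 := by simpa [RY_apply] using hw
      have h1' : RY h u ≠ RY h v := fun h' => h1 ((RY h).injective h')
      have h2' : RY h u ≠ RY h w := fun h' => h2 ((RY h).injective h')
      have h3' : RY h v ≠ RY h w := fun h' => h3 ((RY h).injective h')
      have e1 : (cj ⟨Rf h, Rf_mem_NN h⟩ ⟨tr u v w, hx'⟩ : G0) =
          ⟨tr (RY h u) (RY h v) (RY h w), tr_mem0 hu' hv' hw' h1' h2' h3'⟩ :=
        Subtype.ext (Rf_conj_tr h u v w)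
      have t1 : trunc (Nat.card Q) (tr u v w) ∈ G0 := trunc_mem (sign_G0 hx') _
      have t2 : trunc (Nat.card Q) (tr (RY h u) (RY h v) (RY h w)) ∈ G0 :=
        trunc_mem (sign_G0 (tr_mem0 hu' hv' hw' h1' h2' h3')) _
      rw [e1, trunc_tr f hu' hv' hw' h1' h2' h3' _ t2, map_mul, map_mul,
        trunc_tr f (by omega) (by omega) (by omega) h1 h2 h3 hx' t1, ← map_mul, ← map_mul]
      congr 1
      apply Subtype.ext
      change trunc (Nat.card Q) (tr (RY h u) (RY h v) (RY h w)) =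
        trunc (Nat.card Q) (Rf h) * trunc (Nat.card Q) (tr u v w) * (trunc (Nat.card Q) (Rf h))⁻¹
      rw [eq_mul_inv_iff_mul_eq, ← trunc_mul, ← trunc_mul, ← Rf_conj_tr, inv_mul_cancel_right]
  exact DFunLike.congr_fun key x

/-- the centralizer of `G0` in the product is trivial -/
theorem cent_G0 {f : P} (hf : ∀ x ∈ G0, f * x * f⁻¹ = x) : f = 1 := by
  funext k
  apply cent_alt (by rw [card_X]; omega)
  intro τ hτ
  have := congrFun (hf _ (single_mem k τ hτ)) k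
  rwa [Pi.mul_apply, Pi.mul_apply, Pi.inv_apply, Pi.mulSingle_eq_same] at this

theorem cj_inner {f : NN} : cj f ∈ (MulAut.conj : G0 →* MulAut G0).range ↔ (f : P) ∈ G0 := by
  constructor
  · rintro ⟨g, hg⟩
    have h1 : (g : P)⁻¹ * f = 1 := by
      apply cent_G0
      intro x hx
      have h2 := congrArg Subtype.val (DFunLike.congr_fun hg ⟨x, hx⟩)
      rw [cj_apply] at h2
      change (g : P) * x * (g : P)⁻¹ = f * x * (f : P)⁻¹ at h2
      have e : (g : P)⁻¹ * f * x * ((g : P)⁻¹ * f)⁻¹ = (g : P)⁻¹ * (f * x * (f : P)⁻¹) * g := by group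
      rw [e, ← h2]
      group
    rw [inv_mul_eq_one] at h1
    rw [← h1]
    exact g.2
  · intro hf
    exact ⟨⟨f, hf⟩, MulEquiv.ext fun x => rfl⟩

theorem Rf_notMem {h : F} (hh : h ≠ 1) : Rf h ∉ DD := by
  rintro ⟨j, y, γ, S, h1, k0, h2⟩
  obtain ⟨w, hw⟩ := not_pr S
  have key : ∀ z : F, z * h⁻¹ = y * z := by
    intro z
    have h3 := (h2 (k0 + w) (by omega)).2 (pr _ (w, z))
      (fun x hx => hw _ w le_rfl (by unfold nn; push_cast; omega) z x hx)
    rw [Pi.mul_apply, Pi.inv_apply, Perm.mul_apply, Perm.inv_eq_iff_eq, pr_LY, pr_RY,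
      pr_eq_iff] at h3
    exact h3.2
  have h3 : h⁻¹ = y := by simpa using key 1
  have h4 : ∀ z : F, z * y = y * z := by intro z; rw [← h3]; rw [key z, h3]
  have h5 : ∀ y : F, (∀ z : F, z * y = y * z) → y = 1 := by decide
  apply hh
  rw [← inv_eq_one, h3]
  exact h5 y h4

end Pool.Agent.R664.IAS
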